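import Pool.Agent.J4.H89.Mom3
import Pool.Agent.W611.RO.FinC

/-!
Covariant families of operators on `ℓ²(G)`: from the matrix coefficients to the algebra of bounded
covariant fields.
-/

set_option autoImplicit false
open scoped ComplexConjugate InnerProductSpace Topology BoundedContinuousFunction
open Filter MeasureTheory NormedSpace

namespace Pool.Agent.J4.H89.Mom
open Pool.Agent.H712R5.BO Pool.Agent.W611.RO

section
variable {G Ω : Type} [Group G] [Countable G] [MeasurableSpace Ω] [MulAction G Ω]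

/-- measurable covariant families of bounded operators, in terms of the matrix coefficients -/
structure Covf (T : Ω → (L2 G →L[ℂ] L2 G)) : Prop where
  meas : ∀ i j : G, Measurable (fun ω => ⟪stb G i, T ω (stb G j)⟫_ℂ)
  cov : ∀ (g i j : G) (ω : Ω), ⟪stb G (g * i), T (g • ω) (stb G (g * j))⟫_ℂ
    = ⟪stb G i, T ω (stb G j)⟫_ℂ

/-- the left regular representation -/
theorem exists_L (G : Type) [Group G] : ∃ L : G → unitary (L2 G →L[ℂ] L2 G), Reg (stb G) L := by
  have hL' : ∀ h : G, ∃ U : unitary (L2 G →L[ℂ] L2 G),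
      ∀ k, (U : L2 G →L[ℂ] L2 G) (stb G k) = stb G (h * k) := by
    intro h
    obtain ⟨U, hU⟩ := (t_UNI' G (L2 G) (stb G) (Equiv.mulLeft h) (fun _ => 1)).1 (by simp)
    refine ⟨U, fun k => ?_⟩
    rw [hU k, one_smul]
    rfl
  choose L hLk using hL'
  exact ⟨L, hLk⟩

omit [Group G] [MulAction G Ω] in
theorem meas_apply (T : Ω → (L2 G →L[ℂ] L2 G))
    (hm : ∀ i j : G, Measurable (fun ω => ⟪stb G i, T ω (stb G j)⟫_ℂ)) (x y : L2 G) :
    Measurable (fun ω => ⟪x, T ω y⟫_ℂ) := by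
  have h1 : ∀ (i : G), Measurable (fun ω => ⟪stb G i, T ω y⟫_ℂ) := by
    intro i
    have h2 : ∀ ω, ⟪stb G i, T ω y⟫_ℂ = ∑' k : G, ⟪stb G i, T ω (stb G k)⟫_ℂ * ⟪stb G k, y⟫_ℂ := by
      intro ω
      have h3 : ⟪stb G i, T ω y⟫_ℂ = ⟪star (T ω) (stb G i), y⟫_ℂ := by
        rw [ContinuousLinearMap.star_eq_adjoint, ContinuousLinearMap.adjoint_inner_left]
      rw [h3, ← (stb G).tsum_inner_mul_inner]
      refine tsum_congr fun k => ?_
      rw [ContinuousLinearMap.star_eq_adjoint, ContinuousLinearMap.adjoint_inner_left]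
    simp_rw [h2]
    exact Measurable.tsum fun k => (hm i k).mul measurable_const
  have h4 : ∀ ω, ⟪x, T ω y⟫_ℂ = ∑' k : G, ⟪x, stb G k⟫_ℂ * ⟪stb G k, T ω y⟫_ℂ := by
    intro ω
    rw [(stb G).tsum_inner_mul_inner]
  simp_rw [h4]
  exact Measurable.tsum fun k => measurable_const.mul (h1 k)

omit [MulAction G Ω] [Group G] in
theorem meas_norm (T : Ω → (L2 G →L[ℂ] L2 G))
    (hm : ∀ i j : G, Measurable (fun ω => ⟪stb G i, T ω (stb G j)⟫_ℂ)) (y : L2 G) :
    Measurable (fun ω => ‖T ω y‖) := by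
  have h1 : ∀ ω, ‖T ω y‖
      = Real.sqrt (∑' k : G, conj ⟪stb G k, T ω y⟫_ℂ * ⟪stb G k, T ω y⟫_ℂ).re := by
    intro ω
    have h2 := (stb G).tsum_inner_mul_inner (T ω y) (T ω y)
    simp_rw [inner_conj_symm]
    rw [h2, inner_self_eq_norm_sq_to_K]
    have h3 : (((‖T ω y‖ : ℝ) : ℂ) ^ 2).re = ‖T ω y‖ ^ 2 := by
      rw [← Complex.ofReal_pow, Complex.ofReal_re]
    refine (Real.sqrt_sq (norm_nonneg _)).symm.trans (congrArg Real.sqrt ?_)
    exact h3.symm
  simp_rw [h1]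
  have h4 : ∀ k, Measurable (fun ω => ⟪stb G k, T ω y⟫_ℂ) := fun k => meas_apply T hm (stb G k) y
  refine Real.continuous_sqrt.measurable.comp (Complex.measurable_re.comp
    (Measurable.tsum fun k => ((Complex.continuous_conj.measurable).comp (h4 k)).mul (h4 k)))

/-- a countable dense set -/
theorem exists_dense (G : Type) [Countable G] : ∃ D : Set (L2 G), D.Countable ∧ Dense D := by
  have h1 : TopologicalSpace.IsSeparable
      ((Submodule.span ℂ (Set.range (stb G)) : Submodule ℂ (L2 G)) : Set (L2 G)) :=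
    (Set.countable_range (stb G)).isSeparable.span
  have h2 := h1.closure
  have hd : (Submodule.span ℂ (Set.range (stb G))).topologicalClosure = ⊤ := (stb G).dense_span
  rw [← Submodule.topologicalClosure_coe, hd] at h2
  obtain ⟨D, hD, hD2⟩ := h2
  exact ⟨D, hD, fun x => hD2 trivial⟩

/-- the set where the norm is at most `n` -/
def Bd (T : Ω → (L2 G →L[ℂ] L2 G)) (n : ℕ) : Set Ω := {ω | ‖T ω‖ ≤ n}

omit [Group G] [MulAction G Ω] in
theorem meas_Bd (T : Ω → (L2 G →L[ℂ] L2 G))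
    (hm : ∀ i j : G, Measurable (fun ω => ⟪stb G i, T ω (stb G j)⟫_ℂ)) (n : ℕ) :
    MeasurableSet (Bd T n) := by
  obtain ⟨D, hD, hd⟩ := exists_dense G
  have h1 : Bd T n = ⋂ x ∈ D, {ω | ‖T ω x‖ ≤ n * ‖x‖} := by
    ext ω
    simp only [Bd, Set.mem_iInter]
    constructor
    · intro h x _
      exact (T ω).le_of_opNorm_le h x
    · intro h
      refine (T ω).opNorm_le_bound (Nat.cast_nonneg _) fun x => ?_
      have hc : IsClosed {x : L2 G | ‖T ω x‖ ≤ n * ‖x‖} :=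
        isClosed_le (T ω).continuous.norm (continuous_const.mul continuous_norm)
      have h2 : closure D ⊆ {x : L2 G | ‖T ω x‖ ≤ n * ‖x‖} :=
        hc.closure_subset_iff.2 fun x hx => h x hx
      exact h2 (hd x)
  rw [h1]
  exact MeasurableSet.biInter hD fun x _ => measurableSet_le (meas_norm T hm x) measurable_const

variable {L : G → unitary (L2 G →L[ℂ] L2 G)}

omit [Countable G] in
theorem cov_op (hL : Reg (stb G) L) {T : Ω → (L2 G →L[ℂ] L2 G)} (hT : Covf T) (g : G) (ω : Ω) :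
    T (g • ω) * (L g : L2 G →L[ℂ] L2 G) = (L g : L2 G →L[ℂ] L2 G) * T ω := by
  refine Pool.Agent.W253.RO.clm_ext (stb G) _ _ fun k => ?_
  have h1 : ∀ x y : L2 G, (∀ i, ⟪stb G (g * i), x⟫_ℂ = ⟪stb G (g * i), y⟫_ℂ) → x = y := by
    intro x y hxy
    have h2 : ∀ i, ⟪x - y, stb G i⟫_ℂ = 0 := by
      intro i
      have h3 := hxy (g⁻¹ * i)
      rw [mul_inv_cancel_left] at h3
      rw [← inner_conj_symm, inner_sub_right, h3, sub_self, map_zero]
    exact sub_eq_zero.1 (Pool.Agent.W253.RO.total (stb G) _ h2)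
  refine h1 _ _ fun i => ?_
  show ⟪stb G (g * i), T (g • ω) ((L g : L2 G →L[ℂ] L2 G) (stb G k))⟫_ℂ
    = ⟪stb G (g * i), (L g : L2 G →L[ℂ] L2 G) (T ω (stb G k))⟫_ℂ
  rw [hL g k, hT.cov]
  have h4 : stb G (g * i) = (L g : L2 G →L[ℂ] L2 G) (stb G i) := (hL g i).symm
  rw [h4]
  have h5 : star (L g : L2 G →L[ℂ] L2 G) * (L g : L2 G →L[ℂ] L2 G) = 1 :=
    (Unitary.mem_iff.mp (L g).2).1
  have h6 : ⟪(L g : L2 G →L[ℂ] L2 G) (stb G i), (L g : L2 G →L[ℂ] L2 G) (T ω (stb G k))⟫_ℂ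
      = ⟪stb G i, (star (L g : L2 G →L[ℂ] L2 G) * (L g : L2 G →L[ℂ] L2 G)) (T ω (stb G k))⟫_ℂ := by
    rw [mul_apply_eq_comp, ContinuousLinearMap.star_eq_adjoint,
      ContinuousLinearMap.adjoint_inner_right]
  rw [h6, h5]
  rfl

theorem exists_field {P : Measure Ω} [IsProbabilityMeasure P] (herg : Erg G P)
    (hL : Reg (stb G) L) {T : Ω → (L2 G →L[ℂ] L2 G)} (hT : Covf T) :
    ∃ X : CF (Ω := Ω) (stb G) L, ∀ᵐ ω ∂P, ev (stb G) L ω X = T ω := by
  classical
  have hinv : ∀ (n : ℕ) (g : G), (fun ω : Ω => g • ω) ⁻¹' (Bd T n) = Bd T n := by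
    intro n g
    have hle : ∀ (g : G) (ω : Ω), ‖T ω‖ ≤ ‖T (g • ω)‖ := by
      intro g ω
      have h1 := cov_op hL hT g ω
      have h5 : star (L g : L2 G →L[ℂ] L2 G) * (L g : L2 G →L[ℂ] L2 G) = 1 :=
        (Unitary.mem_iff.mp (L g).2).1
      have h2 : T ω = star (L g : L2 G →L[ℂ] L2 G) * (T (g • ω) * (L g : L2 G →L[ℂ] L2 G)) := by
        rw [h1, ← mul_assoc, h5, one_mul]
      haveI : Nontrivial (L2 G →L[ℂ] L2 G) := by
        refine ⟨⟨1, 0, fun h => ?_⟩⟩
        have h1 := congrArg (fun Z : L2 G →L[ℂ] L2 G => Z (stb G 1)) h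
        have h3 : ‖stb G 1‖ = 1 := (stb G).orthonormal.1 1
        have h4 : (stb G 1 : L2 G) = 0 := h1
        rw [h4, norm_zero] at h3
        exact zero_ne_one h3
      have hu : ‖(L g : L2 G →L[ℂ] L2 G)‖ ≤ 1 := (CStarRing.norm_of_mem_unitary (L g).2).le
      have hu' : ‖star (L g : L2 G →L[ℂ] L2 G)‖ ≤ 1 :=
        (CStarRing.norm_of_mem_unitary (Unitary.star_mem (L g).2)).le
      calc ‖T ω‖ = ‖star (L g : L2 G →L[ℂ] L2 G) * (T (g • ω) * (L g : L2 G →L[ℂ] L2 G))‖ := by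
            rw [← h2]
        _ ≤ ‖star (L g : L2 G →L[ℂ] L2 G)‖ * (‖T (g • ω)‖ * ‖(L g : L2 G →L[ℂ] L2 G)‖) :=
            (norm_mul_le _ _).trans (mul_le_mul_of_nonneg_left (norm_mul_le _ _) (norm_nonneg _))
        _ ≤ 1 * (‖T (g • ω)‖ * 1) := by
            gcongr
        _ = ‖T (g • ω)‖ := by ring
    ext ω
    show ‖T (g • ω)‖ ≤ n ↔ ‖T ω‖ ≤ n
    constructor
    · exact fun h => (hle g ω).trans h
    · intro h
      have h1 := hle g⁻¹ (g • ω)
      rw [inv_smul_smul] at h1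
      exact h1.trans h
  have hmB : ∀ n, MeasurableSet (Bd T n) := fun n => meas_Bd T hT.meas n
  have hex : ∃ n : ℕ, P (Bd T n)ᶜ = 0 := by
    by_contra hcon
    push Not at hcon
    have h0 : ∀ n, P (Bd T n) = 0 := fun n =>
      (herg.erg (Bd T n) (hmB n) (hinv n)).resolve_right (hcon n)
    have hU : (⋃ n, Bd T n) = Set.univ := by
      ext ω
      simp only [Set.mem_iUnion, Set.mem_univ, iff_true]
      obtain ⟨n, hn⟩ := exists_nat_ge ‖T ω‖
      exact ⟨n, hn⟩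
    have h1 : P (⋃ n, Bd T n) = 0 := measure_iUnion_null h0
    rw [hU, measure_univ] at h1
    exact one_ne_zero h1
  obtain ⟨n, hn⟩ := hex
  let f : Dis Ω → (L2 G →L[ℂ] L2 G) := fun ω => if (ω : Ω) ∈ Bd T n then T ω else 0
  have hf : ∀ ω : Ω, f ω = if ω ∈ Bd T n then T ω else 0 := fun ω => rfl
  have hfn : ∀ ω, ‖f ω‖ ≤ n := by
    intro ω
    rw [hf]
    split_ifs with h
    · exact h
    · rw [norm_zero]; exact Nat.cast_nonneg n
  let X0 : Dis Ω →ᵇ (L2 G →L[ℂ] L2 G) :=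
    BoundedContinuousFunction.ofNormedAddCommGroup f continuous_of_discreteTopology n hfn
  have hX0 : ∀ ω : Ω, (X0 : Dis Ω → (L2 G →L[ℂ] L2 G)) ω = if ω ∈ Bd T n then T ω else 0 :=
    fun ω => rfl
  have hmem : X0 ∈ CF (Ω := Ω) (stb G) L := by
    rw [mem_CF]
    constructor
    · intro x y
      have h1 : (fun ω : Ω => ⟪x, (X0 : Dis Ω → (L2 G →L[ℂ] L2 G)) ω y⟫_ℂ)
          = (Bd T n).indicator (fun ω => ⟪x, T ω y⟫_ℂ) := by
        funext ω
        rw [hX0]
        by_cases h : ω ∈ Bd T n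
        · rw [if_pos h, Set.indicator_of_mem h]
        · rw [if_neg h, Set.indicator_of_notMem h]
          simp
      rw [h1]
      exact (meas_apply T hT.meas x y).indicator (hmB n)
    · intro g ω
      rw [hX0, hX0]
      have h1 : g • ω ∈ Bd T n ↔ ω ∈ Bd T n := by
        have := hinv n g
        constructor
        · intro h
          rw [← this]
          exact h
        · intro h
          rw [← this] at h
          exact h
      by_cases h : ω ∈ Bd T n
      · rw [if_pos h, if_pos (h1.2 h)]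
        exact cov_op hL hT g ω
      · rw [if_neg h, if_neg (fun hh => h (h1.1 hh))]
        simp
  refine ⟨⟨X0, hmem⟩, ?_⟩
  have hae : ∀ᵐ ω ∂P, ω ∈ Bd T n := by
    rw [ae_iff]
    exact hn
  filter_upwards [hae] with ω hω
  rw [Pool.Agent.W611.RO.ev_apply]
  show (X0 : Dis Ω → (L2 G →L[ℂ] L2 G)) ω = T ω
  rw [hX0, if_pos hω]

end

end Pool.Agent.J4.H89.Mom
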