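import Pool.Agent.J4.H89.Cov

/-!
The moment criterion for covariant families on `ℓ²(G)`.
-/

set_option autoImplicit false
open scoped ComplexConjugate InnerProductSpace Topology BoundedContinuousFunction
open Filter MeasureTheory NormedSpace

namespace Pool.Agent.J4.H89.Mom
open Pool.Agent.H712R5.BO Pool.Agent.W611.RO

section
variable {G Ω : Type} [Group G] [Countable G] [MeasurableSpace Ω] [MulAction G Ω]

theorem fldCF {P : Measure Ω} [IsProbabilityMeasure P] (herg : Erg G P)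
    {L : G → unitary (L2 G →L[ℂ] L2 G)} (hL : Reg (stb G) L) :
    Fld P (tau P (stb G) L) (fun ω => Pool.Agent.W611.RO.ev (stb G) L ω)
      (fun k => stb G k) (stb G 1) where
  tr := Pool.Agent.W611.RO.t_TR G Ω (L2 G) P (stb G) L hL herg.mp
  nv := (stb G).orthonormal.1 1
  tot := Pool.Agent.W253.RO.total (stb G)
  meas := fun A => (Pool.Agent.W540.RO.t_N2 G Ω (L2 G) P (stb G) L hL herg.mp A).1
  htau := fun A => ⟨ev_int P (stb G) L A _ _, tau_apply P (stb G) L A⟩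
  hn2 := fun A k => ⟨((Pool.Agent.W540.RO.t_N2 G Ω (L2 G) P (stb G) L hL herg.mp A).2 k).1,
    ((Pool.Agent.W540.RO.t_N2 G Ω (L2 G) P (stb G) L hL herg.mp A).2 k).2.le⟩
  h01 := fun B R hB => Pool.Agent.W545.RO.t_ERG G Ω (L2 G) P (stb G) L hL herg B R hB

/-- the dichotomy for covariant families -/
theorem fam_dich {P : Measure Ω} [IsProbabilityMeasure P] (herg : Erg G P)
    {T : Ω → (L2 G →L[ℂ] L2 G)} (hT : Covf T) :
    (∀ᵐ ω ∂P, HasHyp (T ω)) ∨ ∀ n : ℕ, ∫ ω, ⟪stb G 1, (T ω ^ n) (stb G 1)⟫_ℂ ∂P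
      = (∫ ω, ⟪stb G 1, T ω (stb G 1)⟫_ℂ ∂P) ^ n := by
  obtain ⟨L, hL⟩ := exists_L G
  obtain ⟨X, hX⟩ := exists_field herg hL hT
  by_cases h : ∀ᵐ ω ∂P, HasHyp (Pool.Agent.W611.RO.ev (stb G) L ω X)
  · left
    filter_upwards [h, hX] with ω h1 h2
    rw [← h2]
    exact h1
  · right
    intro n
    have h1 := mom_pow (fldCF herg hL) X h n
    rw [tau_apply, tau_apply] at h1
    have h2 : ∫ ω, ⟪stb G 1, (T ω ^ n) (stb G 1)⟫_ℂ ∂P
        = ∫ ω, ⟪stb G 1, Pool.Agent.W611.RO.ev (stb G) L ω (X ^ n) (stb G 1)⟫_ℂ ∂P := by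
      refine integral_congr_ae ?_
      filter_upwards [hX] with ω h2
      rw [map_pow, h2]
    have h3 : ∫ ω, ⟪stb G 1, T ω (stb G 1)⟫_ℂ ∂P
        = ∫ ω, ⟪stb G 1, Pool.Agent.W611.RO.ev (stb G) L ω X (stb G 1)⟫_ℂ ∂P := by
      refine integral_congr_ae ?_
      filter_upwards [hX] with ω h2
      rw [h2]
    rw [h2, h3]
    exact h1

/-- powers are integrable -/
theorem fam_int {P : Measure Ω} [IsProbabilityMeasure P] (herg : Erg G P)
    {T : Ω → (L2 G →L[ℂ] L2 G)} (hT : Covf T) (n : ℕ) :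
    Integrable (fun ω => ⟪stb G 1, (T ω ^ n) (stb G 1)⟫_ℂ) P ∧
      ∃ R : ℝ, ∀ᵐ ω ∂P, ‖⟪stb G 1, (T ω ^ n) (stb G 1)⟫_ℂ‖ ≤ R := by
  obtain ⟨L, hL⟩ := exists_L G
  obtain ⟨X, hX⟩ := exists_field herg hL hT
  have hae : (fun ω => ⟪stb G 1, Pool.Agent.W611.RO.ev (stb G) L ω (X ^ n) (stb G 1)⟫_ℂ)
      =ᵐ[P] fun ω => ⟪stb G 1, (T ω ^ n) (stb G 1)⟫_ℂ := by
    filter_upwards [hX] with ω h2
    rw [map_pow, h2]
  constructor
  · exact (ev_int P (stb G) L (X ^ n) _ _).congr hae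
  · refine ⟨‖stb G 1‖ * ‖stb G 1‖ * ‖X ^ n‖, ?_⟩
    filter_upwards [hae] with ω h2
    rw [← h2]
    exact ev_inner_le (stb G) L (X ^ n) _ _ ω

end

end Pool.Agent.J4.H89.Mom
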