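import Pool.Agent.Y280.HStep

/-!
# Blocks approximate functionals as soon as they approximate vectors
-/

set_option autoImplicit false
open Finset Filter Topology Pool.Agent.Y280

namespace Pool.Agent.J4.H89

/-- The defect of convexity of `|z|^q`. -/
noncomputable def gap (q : ℝ) (a b : ℂ) : ℝ :=
  (‖a‖ ^ q + ‖b‖ ^ q) / 2 - ‖(a + b) / 2‖ ^ q

lemma half_norm (a b : ℂ) : ‖(a + b) / 2‖ ≤ (‖a‖ + ‖b‖) / 2 := by
  rw [norm_div]
  have : ‖(2 : ℂ)‖ = 2 := by simp
  rw [this]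
  have := norm_add_le a b
  linarith

lemma half_pow {q : ℝ} (hq : 1 < q) {s t : ℝ} (hs : 0 ≤ s) (ht : 0 ≤ t) :
    ((s + t) / 2) ^ q ≤ (s ^ q + t ^ q) / 2 := by
  have h := (convexOn_rpow hq.le).2 (show s ∈ Set.Ici (0 : ℝ) from hs)
    (show t ∈ Set.Ici (0 : ℝ) from ht) (show (0 : ℝ) ≤ 1 / 2 by norm_num)
    (show (0 : ℝ) ≤ 1 / 2 by norm_num) (by norm_num)
  simp only [smul_eq_mul] at h
  have e : 1 / 2 * s + 1 / 2 * t = (s + t) / 2 := by ring
  rw [e] at h
  linarith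

lemma half_pow_lt {q : ℝ} (hq : 1 < q) {s t : ℝ} (hs : 0 ≤ s) (ht : 0 ≤ t) (hst : s ≠ t) :
    ((s + t) / 2) ^ q < (s ^ q + t ^ q) / 2 := by
  have h := (strictConvexOn_rpow hq).2 (show s ∈ Set.Ici (0 : ℝ) from hs)
    (show t ∈ Set.Ici (0 : ℝ) from ht) hst (show (0 : ℝ) < 1 / 2 by norm_num)
    (show (0 : ℝ) < 1 / 2 by norm_num) (by norm_num)
  simp only [smul_eq_mul] at h
  have e : 1 / 2 * s + 1 / 2 * t = (s + t) / 2 := by ring
  rw [e] at h
  linarith

lemma gap_nonneg {q : ℝ} (hq : 1 < q) (a b : ℂ) : 0 ≤ gap q a b := by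
  unfold gap
  have h1 := Real.rpow_le_rpow (norm_nonneg _) (half_norm a b) (by linarith : 0 ≤ q)
  have h2 := half_pow hq (norm_nonneg a) (norm_nonneg b)
  linarith

lemma gap_pos {q : ℝ} (hq : 1 < q) {a b : ℂ} (hab : a ≠ b) : 0 < gap q a b := by
  unfold gap
  by_cases h : ‖a‖ = ‖b‖
  · have h1 : ‖(a + b) / 2‖ < ‖a‖ := by
      have h2 := (norm_add_lt_of_not_sameRay (x := a) (y := b) (by
        intro hs
        exact hab ((sameRay_iff_of_norm_eq h).1 hs)))
      rw [norm_div]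
      have : ‖(2 : ℂ)‖ = 2 := by simp
      rw [this]
      linarith
    have h2 := Real.rpow_lt_rpow (norm_nonneg _) h1 (by linarith : 0 < q)
    rw [← h]
    linarith
  · have h1 := Real.rpow_le_rpow (norm_nonneg _) (half_norm a b) (by linarith : 0 ≤ q)
    have h2 := half_pow_lt hq (norm_nonneg a) (norm_nonneg b) h
    linarith

lemma gap_smul {q : ℝ} (t : ℝ) (ht : 0 ≤ t) (a b : ℂ) :
    gap q ((t : ℂ) * a) ((t : ℂ) * b) = t ^ q * gap q a b := by
  unfold gap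
  have e : ((t : ℂ) * a + (t : ℂ) * b) / 2 = (t : ℂ) * ((a + b) / 2) := by ring
  rw [e, norm_mul, norm_mul, norm_mul, Complex.norm_real, Real.norm_of_nonneg ht,
    Real.mul_rpow ht (norm_nonneg _), Real.mul_rpow ht (norm_nonneg _),
    Real.mul_rpow ht (norm_nonneg _)]
  ring

lemma continuous_gap {q : ℝ} (hq : 1 < q) : Continuous fun z : ℂ × ℂ => gap q z.1 z.2 := by
  have hq0 : 0 ≤ q := by linarith
  unfold gap
  have c1 : Continuous fun z : ℂ × ℂ => ‖z.1‖ ^ q :=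
    (continuous_fst.norm).rpow_const fun _ => Or.inr hq0
  have c2 : Continuous fun z : ℂ × ℂ => ‖z.2‖ ^ q :=
    (continuous_snd.norm).rpow_const fun _ => Or.inr hq0
  have c3 : Continuous fun z : ℂ × ℂ => ‖(z.1 + z.2) / 2‖ ^ q :=
    (((continuous_fst.add continuous_snd).div_const 2).norm).rpow_const fun _ => Or.inr hq0
  exact ((c1.add c2).div_const 2).sub c3

/-- The pointwise inequality behind the uniform convexity of `ℓ_q`. -/
lemma gap_bound {q : ℝ} (hq : 1 < q) {ε : ℝ} (hε : 0 < ε) : ∃ C : ℝ, 0 < C ∧ ∀ a b : ℂ,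
    ‖a - b‖ ^ q ≤ ε * (‖a‖ ^ q + ‖b‖ ^ q) + C * gap q a b := by
  have hq0 : 0 < q := by linarith
  -- the normalised statement
  have key : ∃ C : ℝ, 0 < C ∧ ∀ a b : ℂ, ‖a‖ ^ q + ‖b‖ ^ q = 1 →
      ‖a - b‖ ^ q ≤ ε + C * gap q a b := by
    set S : Set (ℂ × ℂ) := {z | ‖z.1‖ ^ q + ‖z.2‖ ^ q = 1 ∧ ε ≤ ‖z.1 - z.2‖ ^ q} with hS
    have c1 : Continuous fun z : ℂ × ℂ => ‖z.1‖ ^ q :=
      (continuous_fst.norm).rpow_const fun _ => Or.inr hq0.le
    have c2 : Continuous fun z : ℂ × ℂ => ‖z.2‖ ^ q :=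
      (continuous_snd.norm).rpow_const fun _ => Or.inr hq0.le
    have c3 : Continuous fun z : ℂ × ℂ => ‖z.1 - z.2‖ ^ q :=
      ((continuous_fst.sub continuous_snd).norm).rpow_const fun _ => Or.inr hq0.le
    have hcl : IsClosed S :=
      (isClosed_eq (c1.add c2) continuous_const).inter (isClosed_le continuous_const c3)
    have hle : ∀ z ∈ S, ‖z.1‖ ≤ 1 ∧ ‖z.2‖ ≤ 1 := by
      intro z hz
      have h1 : 0 ≤ ‖z.1‖ ^ q := by positivity
      have h2 : 0 ≤ ‖z.2‖ ^ q := by positivity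
      have h3 : ‖z.1‖ ^ q + ‖z.2‖ ^ q = 1 := hz.1
      constructor
      · have h4 : ‖z.1‖ ^ q ≤ (1 : ℝ) ^ q := by rw [Real.one_rpow]; linarith
        exact (Real.rpow_le_rpow_iff (norm_nonneg _) zero_le_one hq0).1 h4
      · have h4 : ‖z.2‖ ^ q ≤ (1 : ℝ) ^ q := by rw [Real.one_rpow]; linarith
        exact (Real.rpow_le_rpow_iff (norm_nonneg _) zero_le_one hq0).1 h4
    have hbd : Bornology.IsBounded S := by
      refine (Metric.isBounded_closedBall (x := (0 : ℂ × ℂ)) (r := 1)).subset ?_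
      intro z hz
      rw [mem_closedBall_zero_iff, Prod.norm_def]
      exact max_le (hle z hz).1 (hle z hz).2
    have hcpt : IsCompact S := Metric.isCompact_of_isClosed_isBounded hcl hbd
    rcases S.eq_empty_or_nonempty with hempty | hne
    · refine ⟨1, one_pos, fun a b hab => ?_⟩
      have h1 : (a, b) ∉ S := by rw [hempty]; exact Set.notMem_empty _
      have h2 : ‖a - b‖ ^ q < ε := by
        by_contra hc
        exact h1 ⟨hab, not_lt.1 hc⟩
      have := gap_nonneg hq a b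
      linarith
    · obtain ⟨z, hz, hmin⟩ := hcpt.exists_isMinOn hne (continuous_gap hq).continuousOn
      have hz0 : 0 < gap q z.1 z.2 := by
        apply gap_pos hq
        intro h
        have h1 : ε ≤ ‖z.1 - z.2‖ ^ q := hz.2
        rw [h, sub_self, norm_zero, Real.zero_rpow hq0.ne'] at h1
        linarith
      refine ⟨2 ^ q / gap q z.1 z.2, by positivity, fun a b hab => ?_⟩
      by_cases h : ε ≤ ‖a - b‖ ^ q
      · have hmem : (a, b) ∈ S := ⟨hab, h⟩
        have h1 : gap q z.1 z.2 ≤ gap q a b := hmin hmem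
        have h2 : 2 ^ q ≤ 2 ^ q / gap q z.1 z.2 * gap q a b := by
          rw [div_mul_eq_mul_div, le_div_iff₀ hz0]
          exact mul_le_mul_of_nonneg_left h1 (by positivity)
        have h3 : ‖a - b‖ ^ q ≤ 2 ^ q := by
          apply Real.rpow_le_rpow (norm_nonneg _) _ hq0.le
          have := norm_sub_le a b
          have := hle (a, b) hmem
          simp only at this
          linarith [this.1, this.2]
        linarith
      · have h1 := gap_nonneg hq a b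
        have h2 : 0 ≤ 2 ^ q / gap q z.1 z.2 * gap q a b := by positivity
        push Not at h
        linarith
  obtain ⟨C, hC, hkey⟩ := key
  refine ⟨C, hC, fun a b => ?_⟩
  set s : ℝ := ‖a‖ ^ q + ‖b‖ ^ q with hs
  have hs0 : 0 ≤ s := by positivity
  rcases hs0.eq_or_lt with h0 | hpos
  · have h1 : 0 ≤ ‖a‖ ^ q := by positivity
    have h2 : 0 ≤ ‖b‖ ^ q := by positivity
    have h3 : ‖a‖ ^ q = 0 := by linarith
    have h4 : ‖b‖ ^ q = 0 := by linarith
    have h5 : a = 0 := by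
      rw [Real.rpow_eq_zero (norm_nonneg _) hq0.ne'] at h3
      exact norm_eq_zero.1 h3
    have h6 : b = 0 := by
      rw [Real.rpow_eq_zero (norm_nonneg _) hq0.ne'] at h4
      exact norm_eq_zero.1 h4
    have := gap_nonneg hq a b
    rw [h5, h6, sub_self, norm_zero, Real.zero_rpow hq0.ne']
    rw [h5, h6] at this
    have : 0 ≤ C * gap q 0 0 := by positivity
    have : 0 ≤ ε * s := by positivity
    linarith
  · set t : ℝ := s ^ (-(1 / q)) with ht
    have ht0 : 0 < t := by positivity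
    have htq : t ^ q = s⁻¹ := by
      rw [ht, ← Real.rpow_mul hpos.le, neg_mul, one_div_mul_cancel hq0.ne', Real.rpow_neg_one]
    have h1 : ‖(t : ℂ) * a‖ ^ q + ‖(t : ℂ) * b‖ ^ q = 1 := by
      rw [norm_mul, norm_mul, Complex.norm_real, Real.norm_of_nonneg ht0.le,
        Real.mul_rpow ht0.le (norm_nonneg _), Real.mul_rpow ht0.le (norm_nonneg _), ← mul_add,
        htq]
      exact inv_mul_cancel₀ hpos.ne'
    have h2 := hkey _ _ h1
    rw [gap_smul t ht0.le, ← mul_sub, norm_mul, Complex.norm_real, Real.norm_of_nonneg ht0.le,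
        Real.mul_rpow ht0.le (norm_nonneg _), htq] at h2
    have h3 := mul_le_mul_of_nonneg_left h2 hpos.le
    have e1 : s * (s⁻¹ * ‖a - b‖ ^ q) = ‖a - b‖ ^ q := by
      rw [← mul_assoc, mul_inv_cancel₀ hpos.ne', one_mul]
    have e2 : s * (ε + C * (s⁻¹ * gap q a b)) = ε * s + C * gap q a b := by
      field_simp
    rw [e1, e2] at h3
    exact h3

/-- **Uniform convexity of `ℓ_q^I`, uniformly in `I`.** -/
lemma ell_uc {q : ℝ} (hq : 1 < q) {ε : ℝ} (hε : 0 < ε) : ∃ δ : ℝ, 0 < δ ∧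
    ∀ (I : Type) (_ : Fintype I) (a b : I → ℂ), ∑ i, ‖a i‖ ^ q ≤ 1 → ∑ i, ‖b i‖ ^ q ≤ 1 →
      1 - δ ≤ ∑ i, ‖(a i + b i) / 2‖ ^ q → ∑ i, ‖a i - b i‖ ^ q ≤ ε := by
  obtain ⟨C, hC, h⟩ := gap_bound hq (show 0 < ε / 4 by positivity)
  refine ⟨ε / (2 * C), by positivity, fun I _ a b ha hb hab => ?_⟩
  have h1 : ∑ i, ‖a i - b i‖ ^ q ≤ ∑ i, (ε / 4 * (‖a i‖ ^ q + ‖b i‖ ^ q) + C * gap q (a i) (b i)) :=
    sum_le_sum fun i _ => h _ _
  have h2 : ∑ i, (ε / 4 * (‖a i‖ ^ q + ‖b i‖ ^ q) + C * gap q (a i) (b i)) =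
      ε / 4 * (∑ i, ‖a i‖ ^ q + ∑ i, ‖b i‖ ^ q) +
        C * ((∑ i, ‖a i‖ ^ q + ∑ i, ‖b i‖ ^ q) / 2 - ∑ i, ‖(a i + b i) / 2‖ ^ q) := by
    unfold gap
    rw [sum_add_distrib, ← mul_sum, ← mul_sum, sum_sub_distrib, ← sum_div, sum_add_distrib]
  rw [h2] at h1
  have h3 : ε / 4 * (∑ i, ‖a i‖ ^ q + ∑ i, ‖b i‖ ^ q) ≤ ε / 4 * 2 :=
    mul_le_mul_of_nonneg_left (by linarith) (by positivity)
  have h4 : C * ((∑ i, ‖a i‖ ^ q + ∑ i, ‖b i‖ ^ q) / 2 - ∑ i, ‖(a i + b i) / 2‖ ^ q) ≤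
      C * (ε / (2 * C)) := mul_le_mul_of_nonneg_left (by linarith) hC.le
  have h5 : C * (ε / (2 * C)) = ε / 2 := by field_simp
  linarith

section da

variable {E : Type*} [NormedAddCommGroup E] [NormedSpace ℂ E]

/-- The coordinates of a functional on a block. -/
lemma sum_coord_dual {p q : ℝ} (hpq : p.HolderConjugate q) {I : Type} [Fintype I] {e : I → E}
    {k : I → StrongDual ℂ E} (h : Blk p e k) (y : StrongDual ℂ E) :
    ∑ i, ‖y (e i)‖ ^ q ≤ ‖y‖ ^ q := by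
  have hp := hpq.pos
  have hq := hpq.symm.pos
  classical
  have h1 : (∑ i, ‖y (e i)‖ ^ q) ^ (1 / q) ≤ ‖y‖ := by
    obtain ⟨g, hg, hg'⟩ :=
      (NNReal.isGreatest_Lp (univ : Finset I) (fun m => ‖y (e m)‖₊) hpq.symm).1
    have e1 : (∑ m, ‖y (e m)‖ ^ q) ^ (1 / q) = ∑ m, ‖y (e m)‖ * (g m : ℝ) := by
      have := congrArg (fun x : NNReal => (x : ℝ)) hg'
      push_cast at this
      simpa using this.symm
    rw [e1]
    set w : I → ℂ := fun m => (g m : ℂ) * ((starRingEnd ℂ) (y (e m)) / ‖y (e m)‖) with hw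
    have hw1 : ∀ m, ‖w m‖ ≤ g m := by
      intro m
      rw [hw]
      simp only [norm_mul, norm_div, RCLike.norm_conj, Complex.norm_real, norm_norm]
      by_cases hv : ‖y (e m)‖ = 0
      · rw [hv]; simp
      · rw [div_self hv, mul_one]
        simp
    have hw2 : ∀ m, y (e m) * w m = ((‖y (e m)‖ * (g m : ℝ) : ℝ) : ℂ) := by
      intro m
      rw [hw]
      by_cases hv : y (e m) = 0
      · simp [hv]
      · have hv' : (‖y (e m)‖ : ℂ) ≠ 0 := by
          simpa using hv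
        have e3 : y (e m) * (starRingEnd ℂ) (y (e m)) = (‖y (e m)‖ : ℂ) ^ 2 := by
          rw [Complex.mul_conj, Complex.normSq_eq_norm_sq]; push_cast; ring
        have : y (e m) * ((g m : ℂ) * ((starRingEnd ℂ) (y (e m)) / ‖y (e m)‖)) =
            (g m : ℂ) * (y (e m) * (starRingEnd ℂ) (y (e m))) / ‖y (e m)‖ := by ring
        beta_reduce
        rw [this, e3]
        push_cast
        field_simp
    have h2 : y (vecB e w) = ((∑ m, ‖y (e m)‖ * (g m : ℝ) : ℝ) : ℂ) := by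
      unfold vecB
      rw [map_sum, Complex.ofReal_sum]
      refine sum_congr rfl fun m _ => ?_
      rw [map_smul, smul_eq_mul, mul_comm, hw2]
    have h3 : ‖vecB e w‖ ≤ 1 := by
      have h4 : ∑ i, ‖w i‖ ^ p ≤ 1 := by
        have hg1 : ∑ m, (g m : ℝ) ^ p ≤ 1 := by
          have : (∑ m, (g m) ^ p) ≤ 1 := hg
          exact_mod_cast this
        refine le_trans (sum_le_sum fun m _ => ?_) hg1
        exact Real.rpow_le_rpow (norm_nonneg _) (hw1 m) hp.le
      have h5 := h.norm_vecB_le hp h4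
      rwa [Real.one_rpow] at h5
    have h4 : ‖y (vecB e w)‖ ≤ ‖y‖ :=
      (y.le_opNorm _).trans (mul_le_of_le_one_right (norm_nonneg _) h3)
    rw [h2, Complex.norm_real] at h4
    exact (le_abs_self _).trans h4
  have h2 := Real.rpow_le_rpow (by positivity) h1 hq.le
  rwa [← Real.rpow_mul (sum_nonneg fun _ _ => by positivity), one_div_mul_cancel hq.ne',
    Real.rpow_one] at h2

lemma fnl_le {p q : ℝ} (hpq : p.HolderConjugate q) {I : Type} [Fintype I] {e : I → E}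
    {k : I → StrongDual ℂ E} (h : Blk p e k) (v : I → ℂ) {x : E} (hx : ‖x‖ ≤ 1) :
    ‖fnlB k v x‖ ≤ (∑ i, ‖v i‖ ^ q) ^ (1 / q) :=
  ((fnlB k v).le_opNorm x).trans ((mul_le_of_le_one_right (norm_nonneg _) hx).trans
    (h.norm_fnlB_le hpq le_rfl))

/-- The space is approximated by blocks. -/
def AX (p : ℝ) (E : Type*) [NormedAddCommGroup E] [NormedSpace ℂ E] : Prop :=
  ∀ (X : Finset E) (ε : ℝ), 0 < ε → ∃ (N : ℕ) (e : Fin N → E) (k : Fin N → StrongDual ℂ E),
    Blk p e k ∧ ∀ x ∈ X, ‖vecB e (fun i => k i x) - x‖ ≤ ε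

/-- **Blocks which approximate a suitable vector approximate a given functional.** -/
theorem dual_approx {p q : ℝ} (hpq : p.HolderConjugate q) (hAX : AX p E) (y : StrongDual ℂ E)
    {ε : ℝ} (hε : 0 < ε) : ∃ (x₀ : E) (δ : ℝ), 0 < δ ∧
      ∀ (N : ℕ) (e : Fin N → E) (k : Fin N → StrongDual ℂ E), Blk p e k →
        ‖vecB e (fun i => k i x₀) - x₀‖ ≤ δ → ‖fnlB k (fun i => y (e i)) - y‖ ≤ ε := by
  classical
  have hp := hpq.pos
  have hq := hpq.symm.pos
  have hq1 := hpq.symm.lt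
  by_cases hy : y = 0
  · refine ⟨0, 1, one_pos, fun N e k _ _ => ?_⟩
    have : fnlB k (fun i => y (e i)) = 0 := by
      ext z
      rw [fnlB_apply]
      simp [hy]
    rw [this, hy, sub_zero, norm_zero]
    exact hε.le
  have hc : 0 < ‖y‖ := norm_pos_iff.2 hy
  set c := ‖y‖ with hcdef
  obtain ⟨δ, hδ, huc⟩ := ell_uc hq1 (show 0 < (ε / (2 * c)) ^ q by positivity)
  -- `θ < 1` with `θ ^ q ≥ 1 - δ`
  obtain ⟨η, hη, hη1, hηδ⟩ : ∃ η : ℝ, 0 < η ∧ η < 1 ∧ 1 - δ ≤ (1 - η) ^ q := by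
    have hcont : Tendsto (fun t : ℝ => (1 - t) ^ q) (𝓝 0) (𝓝 1) := by
      have h1 : Tendsto (fun t : ℝ => 1 - t) (𝓝 0) (𝓝 (1 - 0)) := tendsto_const_nhds.sub tendsto_id
      have h2 := h1.rpow_const (p := q) (Or.inr hq.le)
      rwa [sub_zero, Real.one_rpow] at h2
    have h1 : ∀ᶠ t : ℝ in 𝓝 0, 1 - δ ≤ (1 - t) ^ q :=
      hcont.eventually (le_mem_nhds (by linarith))
    have h2 : ∀ᶠ t : ℝ in 𝓝[>] 0, 1 - δ ≤ (1 - t) ^ q := h1.filter_mono nhdsWithin_le_nhds
    have h3 : ∀ᶠ t : ℝ in 𝓝[>] 0, t < 1 :=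
      (gt_mem_nhds one_pos).filter_mono nhdsWithin_le_nhds
    obtain ⟨t, ht1, ht2, ht3⟩ := (h2.and (h3.and self_mem_nhdsWithin)).exists
    exact ⟨t, ht3, ht2, ht1⟩
  -- a vector almost attaining the norm
  obtain ⟨x₀, hx₀, hyx₀⟩ : ∃ x₀ : E, ‖x₀‖ ≤ 1 ∧ c * (1 - η / 4) < ‖y x₀‖ := by
    by_contra hcon
    push Not at hcon
    have h1 : ‖y‖ ≤ c * (1 - η / 4) := by
      refine ContinuousLinearMap.opNorm_le_of_unit_norm (by
        have : 0 < 1 - η / 4 := by linarith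
        positivity) fun x hx => hcon x hx.le
    have h2 : c * (1 - η / 4) < c := by nlinarith
    rw [← hcdef] at h1
    linarith
  refine ⟨x₀, η / 4, by positivity, fun N e k hb hR => ?_⟩
  set yR : StrongDual ℂ E := fnlB k (fun i => y (e i)) with hyR
  have hyRn : ‖yR‖ ≤ c := hb.norm_dR hp y
  have hyRx : ‖yR x₀ - y x₀‖ ≤ c * (η / 4) := by
    rw [hyR, fnlB_comp, ← map_sub]
    exact (y.le_opNorm _).trans (mul_le_mul_of_nonneg_left hR hc.le)
  refine ContinuousLinearMap.opNorm_le_of_unit_norm hε.le fun z hz => ?_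
  -- finer blocks
  apply le_of_forall_pos_le_add
  intro τ hτ
  set τ' : ℝ := min (η / 8) (τ / (4 * c)) with hτ'
  have hτ'0 : 0 < τ' := lt_min (by positivity) (by positivity)
  obtain ⟨N', e', k', hb', hR'⟩ := hAX {x₀, z} τ' hτ'0
  have hRx := hR' x₀ (mem_insert_self _ _)
  have hRz := hR' z (mem_insert_of_mem (mem_singleton_self _))
  set a : Fin N' → ℂ := fun i => y (e' i) / c with ha
  set b : Fin N' → ℂ := fun i => yR (e' i) / c with hbdef
  have hcC : ‖(c : ℂ)‖ = c := by rw [Complex.norm_real, Real.norm_of_nonneg hc.le]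
  have haq : ∑ i, ‖a i‖ ^ q ≤ 1 := by
    have h1 := sum_coord_dual hpq hb' y
    have e1 : ∑ i, ‖a i‖ ^ q = (∑ i, ‖y (e' i)‖ ^ q) / c ^ q := by
      rw [sum_div]
      refine sum_congr rfl fun i _ => ?_
      rw [ha]
      beta_reduce
      rw [norm_div, hcC, Real.div_rpow (norm_nonneg _) hc.le]
    rw [e1, div_le_one (by positivity)]
    exact h1
  have hbq : ∑ i, ‖b i‖ ^ q ≤ 1 := by
    have h1 := (sum_coord_dual hpq hb' yR).trans (Real.rpow_le_rpow (norm_nonneg _) hyRn hq.le)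
    have e1 : ∑ i, ‖b i‖ ^ q = (∑ i, ‖yR (e' i)‖ ^ q) / c ^ q := by
      rw [sum_div]
      refine sum_congr rfl fun i _ => ?_
      rw [hbdef]
      beta_reduce
      rw [norm_div, hcC, Real.div_rpow (norm_nonneg _) hc.le]
    rw [e1, div_le_one (by positivity)]
    exact h1
  -- functionals on the finer block
  have hfa : ∀ x, fnlB k' a x = y (vecB e' fun i => k' i x) / c := by
    intro x
    rw [← fnlB_comp, fnlB_apply, fnlB_apply, sum_div]
    refine sum_congr rfl fun i _ => ?_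
    rw [ha]
    ring
  have hfb : ∀ x, fnlB k' b x = yR (vecB e' fun i => k' i x) / c := by
    intro x
    rw [← fnlB_comp, fnlB_apply, fnlB_apply, sum_div]
    refine sum_congr rfl fun i _ => ?_
    rw [hbdef]
    ring
  have hmid : 1 - δ ≤ ∑ i, ‖(a i + b i) / 2‖ ^ q := by
    have h1 := fnl_le hpq hb' (fun i => (a i + b i) / 2) hx₀
    have h2 : fnlB k' (fun i => (a i + b i) / 2) x₀ = (fnlB k' a x₀ + fnlB k' b x₀) / 2 := by
      rw [fnlB_apply, fnlB_apply, fnlB_apply, ← sum_add_distrib, sum_div]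
      exact sum_congr rfl fun i _ => by ring
    rw [h2, hfa, hfb] at h1
    -- lower bound
    set x₁ := vecB e' fun i => k' i x₀ with hx₁
    have h3 : ‖y x₁ - y x₀‖ ≤ c * (η / 8) := by
      rw [← map_sub]
      exact (y.le_opNorm _).trans (mul_le_mul_of_nonneg_left (hRx.trans (min_le_left _ _)) hc.le)
    have h4 : ‖yR x₁ - yR x₀‖ ≤ c * (η / 8) := by
      rw [← map_sub]
      exact (yR.le_opNorm _).trans (mul_le_mul hyRn (hRx.trans (min_le_left _ _))
        (norm_nonneg _) hc.le)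
    have h5 : (y x₁ / c + yR x₁ / c) / 2 =
        (y x₀ + ((y x₁ - y x₀) + (yR x₁ - yR x₀) + (yR x₀ - y x₀)) / 2) / c := by ring
    have h6 : ‖(y x₁ / c + yR x₁ / c) / 2‖ =
        ‖y x₀ + ((y x₁ - y x₀) + (yR x₁ - yR x₀) + (yR x₀ - y x₀)) / 2‖ / c := by
      rw [h5, norm_div, hcC]
    have h7 : ‖((y x₁ - y x₀) + (yR x₁ - yR x₀) + (yR x₀ - y x₀)) / 2‖ ≤ c * (η / 4) := by
      rw [norm_div]
      have : ‖(2 : ℂ)‖ = 2 := by simp
      rw [this]
      have h8 := norm_add₃_le (a := y x₁ - y x₀) (b := yR x₁ - yR x₀) (c := yR x₀ - y x₀)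
      linarith
    have h8 : c * (1 - η) ≤
        ‖y x₀ + ((y x₁ - y x₀) + (yR x₁ - yR x₀) + (yR x₀ - y x₀)) / 2‖ := by
      have h9 := norm_sub_le_norm_add (y x₀) (((y x₁ - y x₀) + (yR x₁ - yR x₀) +
        (yR x₀ - y x₀)) / 2)
      nlinarith
    have h9 : 1 - η ≤ ‖(y x₁ / c + yR x₁ / c) / 2‖ := by
      rw [h6, le_div_iff₀ hc]
      linarith
    have h10 := h9.trans h1
    have h11 := Real.rpow_le_rpow (by linarith) h10 hq.le
    rw [← Real.rpow_mul (sum_nonneg fun _ _ => by positivity), one_div_mul_cancel hq.ne',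
      Real.rpow_one] at h11
    exact hηδ.trans h11
  have hfin := huc (Fin N') inferInstance a b haq hbq hmid
  -- conclusion
  have hz1 : ‖z‖ ≤ 1 := hz.le
  have h1 := fnl_le hpq hb' (fun i => a i - b i) hz1
  have h2 : fnlB k' (fun i => a i - b i) z = fnlB k' a z - fnlB k' b z := by
    rw [fnlB_apply, fnlB_apply, fnlB_apply, ← sum_sub_distrib]
    exact sum_congr rfl fun i _ => by ring
  rw [h2, hfa, hfb] at h1
  have h3 : (∑ i, ‖a i - b i‖ ^ q) ^ (1 / q) ≤ ε / (2 * c) := by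
    have h4 := Real.rpow_le_rpow (sum_nonneg fun _ _ => by positivity) hfin
      (show 0 ≤ 1 / q by positivity)
    rwa [← Real.rpow_mul (by positivity), mul_one_div_cancel hq.ne', Real.rpow_one] at h4
  set z₁ := vecB e' fun i => k' i z with hz₁
  have h4 : ‖y z₁ / c - yR z₁ / c‖ = ‖yR z₁ - y z₁‖ / c := by
    rw [← sub_div, norm_div, hcC, norm_sub_rev]
  have h5 : ‖yR z₁ - y z₁‖ ≤ ε / 2 := by
    have h6 := h1.trans h3
    rw [h4, div_le_iff₀ hc] at h6
    have : ε / (2 * c) * c = ε / 2 := by field_simp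
    linarith
  have h6 : ‖y z₁ - y z‖ ≤ τ / 4 := by
    rw [← map_sub]
    refine (y.le_opNorm _).trans ((mul_le_mul_of_nonneg_left (hRz.trans (min_le_right _ _))
      hc.le).trans (le_of_eq ?_))
    field_simp
  have h7 : ‖yR z₁ - yR z‖ ≤ τ / 4 := by
    rw [← map_sub]
    refine (yR.le_opNorm _).trans ((mul_le_mul hyRn (hRz.trans (min_le_right _ _))
        (norm_nonneg _) hc.le).trans (le_of_eq ?_))
    field_simp
  have h8 : (yR - y) z = (yR z₁ - y z₁) - (yR z₁ - yR z) + (y z₁ - y z) := by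
    rw [_root_.sub_apply]; ring
  rw [h8]
  refine (norm_add_le _ _).trans ?_
  have h9 := norm_sub_le (yR z₁ - y z₁) (yR z₁ - yR z)
  linarith

end da

end Pool.Agent.J4.H89
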