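import Pool.Agent.J4.H89.LB1

/-!
# Blocks of normalised indicator functions in `L_p(μ)`
-/

set_option autoImplicit false
open Finset Filter Topology MeasureTheory Pool.Agent.Y280
open scoped ENNReal

namespace Pool.Agent.J4.H89

variable {α : Type} [MeasurableSpace α] {μ : Measure α} {P : ℝ≥0∞} [hP : Fact (1 ≤ P)]

lemma one_le_P : 1 ≤ P := hP.out

lemma P_ne_zero : P ≠ 0 := (zero_lt_one.trans_le (one_le_P (P := P))).ne'

lemma pos_toReal (hPt : P ≠ ∞) : 0 < P.toReal := ENNReal.toReal_pos P_ne_zero hPt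

lemma memLp_restrict (x : Lp ℂ P μ) (s : Set α) : MemLp x P (μ.restrict s) :=
  (Lp.memLp x).restrict s

lemma integrableOn_Lp (x : Lp ℂ P μ) {s : Set α} (hs : μ s ≠ ∞) : IntegrableOn x s μ := by
  haveI : IsFiniteMeasure (μ.restrict s) := ⟨by rw [Measure.restrict_apply_univ]; exact hs.lt_top⟩
  exact (memLp_restrict x s).integrable one_le_P

/-- The local norm. -/
noncomputable def loc (x : Lp ℂ P μ) (s : Set α) : ℝ := (eLpNorm x P (μ.restrict s)).toReal

lemma loc_pow (hPt : P ≠ ∞) (x : Lp ℂ P μ) (s : Set α) :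
    loc x s ^ P.toReal = (∫⁻ a in s, ‖x a‖ₑ ^ P.toReal ∂μ).toReal := by
  have hp := pos_toReal (P := P) hPt
  unfold loc
  rw [ENNReal.toReal_rpow, eLpNorm_eq_lintegral_rpow_enorm_toReal P_ne_zero hPt,
    ← ENNReal.rpow_mul, one_div_mul_cancel hp.ne', ENNReal.rpow_one]

lemma norm_pow_Lp (hPt : P ≠ ∞) (x : Lp ℂ P μ) :
    ‖x‖ ^ P.toReal = (∫⁻ a, ‖x a‖ₑ ^ P.toReal ∂μ).toReal := by
  have hp := pos_toReal (P := P) hPt
  rw [Lp.norm_def, ENNReal.toReal_rpow, eLpNorm_eq_lintegral_rpow_enorm_toReal P_ne_zero hPt,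
    ← ENNReal.rpow_mul, one_div_mul_cancel hp.ne', ENNReal.rpow_one]

lemma lint_ne_top (hPt : P ≠ ∞) (x : Lp ℂ P μ) : ∫⁻ a, ‖x a‖ₑ ^ P.toReal ∂μ ≠ ∞ :=
  (lintegral_rpow_enorm_lt_top_of_eLpNorm_lt_top P_ne_zero hPt (Lp.eLpNorm_lt_top x)).ne

lemma loc_le (x : Lp ℂ P μ) (s : Set α) : loc x s ≤ ‖x‖ := by
  rw [Lp.norm_def]
  exact ENNReal.toReal_mono (Lp.eLpNorm_lt_top x).ne
    (eLpNorm_mono_measure _ Measure.restrict_le_self)

lemma sum_loc {I : Type} (J : Finset I) (hPt : P ≠ ∞) (x : Lp ℂ P μ) {s : I → Set α}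
    (hs : ∀ i, MeasurableSet (s i)) (hd : ∀ i j, i ≠ j → Disjoint (s i) (s j)) :
    ∑ i ∈ J, loc x (s i) ^ P.toReal ≤ ‖x‖ ^ P.toReal := by
  have h1 := lint_ne_top hPt x
  have h2 : ∀ t : Set α, ∫⁻ a in t, ‖x a‖ₑ ^ P.toReal ∂μ ≠ ∞ := fun t =>
    ((setLIntegral_le_lintegral t _).trans_lt h1.lt_top).ne
  simp only [loc_pow hPt]
  rw [norm_pow_Lp hPt, ← ENNReal.toReal_sum fun i _ => h2 _,
    ← lintegral_biUnion_finset (fun i _ j _ hij => hd i j hij) (fun i _ => hs i)]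
  exact ENNReal.toReal_mono h1 (setLIntegral_le_lintegral _ _)

lemma int_le (x : Lp ℂ P μ) {s : Set α} (hs : μ s ≠ ∞) :
    ‖∫ a in s, x a ∂μ‖ ≤ loc x s * μ.real s ^ (1 - 1 / P.toReal) := by
  haveI : IsFiniteMeasure (μ.restrict s) := ⟨by rw [Measure.restrict_apply_univ]; exact hs.lt_top⟩
  have h0 := memLp_restrict x s
  have h1 := eLpNorm_le_eLpNorm_mul_rpow_measure_univ (μ := μ.restrict s) (one_le_P (P := P)) h0.1
  rw [Measure.restrict_apply_univ, ENNReal.toReal_one, div_one] at h1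
  have h2 : ‖∫ a in s, x a ∂μ‖ ≤ (eLpNorm x 1 (μ.restrict s)).toReal := by
    refine (norm_integral_le_lintegral_norm _).trans (le_of_eq ?_)
    rw [eLpNorm_one_eq_lintegral_enorm]
    congr 1
    refine lintegral_congr fun a => ?_
    rw [ofReal_norm_eq_enorm]
  refine h2.trans ?_
  have hnn : 0 ≤ 1 - 1 / P.toReal := by
    by_cases hPt : P = ∞
    · rw [hPt]; simp
    · have h3 : 1 ≤ P.toReal := by
        have := (ENNReal.toReal_le_toReal ENNReal.one_ne_top hPt).2 (one_le_P (P := P))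
        simpa using this
      rw [sub_nonneg, div_le_one (by linarith)]
      exact h3
  have h3 : eLpNorm x P (μ.restrict s) * μ s ^ (1 - 1 / P.toReal) ≠ ∞ :=
    ENNReal.mul_ne_top h0.2.ne (ENNReal.rpow_ne_top_of_nonneg hnn hs)
  refine (ENNReal.toReal_mono h3 h1).trans (le_of_eq ?_)
  rw [ENNReal.toReal_mul, ← ENNReal.toReal_rpow]
  rfl

/-- Integration over a set of finite measure. -/
noncomputable def intF (P : ℝ≥0∞) [Fact (1 ≤ P)] (s : Set α) (hs : μ s ≠ ∞) :
    StrongDual ℂ (Lp ℂ P μ) :=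
  LinearMap.mkContinuous
    { toFun := fun x => ∫ a in s, x a ∂μ
      map_add' := fun x y => by
        rw [← integral_add (integrableOn_Lp x hs) (integrableOn_Lp y hs)]
        exact integral_congr_ae (ae_restrict_of_ae (Lp.coeFn_add x y))
      map_smul' := fun c x => by
        rw [RingHom.id_apply, ← integral_smul]
        exact integral_congr_ae (ae_restrict_of_ae (Lp.coeFn_smul c x)) }
    (μ.real s ^ (1 - 1 / P.toReal)) fun x => by
      refine (int_le x hs).trans ?_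
      rw [mul_comm]
      exact mul_le_mul_of_nonneg_left (loc_le x s) (by positivity)

lemma intF_apply {s : Set α} (hs : μ s ≠ ∞) (x : Lp ℂ P μ) :
    intF P s hs x = ∫ a in s, x a ∂μ := rfl

lemma norm_intF_le {s : Set α} (hs : μ s ≠ ∞) :
    ‖intF (μ := μ) P s hs‖ ≤ μ.real s ^ (1 - 1 / P.toReal) :=
  LinearMap.mkContinuous_norm_le _ (by positivity) _

/-- Measurable sets of finite positive measure. -/
def FS (μ : Measure α) : Type := {s : Set α // MeasurableSet s ∧ μ s ≠ 0 ∧ μ s ≠ ∞}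

namespace FS

/-- The underlying set. -/
def S (s : FS μ) : Set α := s.1

lemma ms (s : FS μ) : MeasurableSet s.S := s.2.1
lemma ne0 (s : FS μ) : μ s.S ≠ 0 := s.2.2.1
lemma net (s : FS μ) : μ s.S ≠ ∞ := s.2.2.2

/-- The measure. -/
noncomputable def m (s : FS μ) : ℝ := μ.real s.S

lemma m_pos (s : FS μ) : 0 < s.m := ENNReal.toReal_pos s.ne0 s.net

end FS

/-- The normalised indicator function. -/
noncomputable def eL (P : ℝ≥0∞) [Fact (1 ≤ P)] (s : FS μ) : Lp ℂ P μ :=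
  ((s.m ^ (-(1 / P.toReal)) : ℝ) : ℂ) • indicatorConstLp P s.ms s.net (1 : ℂ)

/-- The normalised integral. -/
noncomputable def kL (P : ℝ≥0∞) [Fact (1 ≤ P)] (s : FS μ) : StrongDual ℂ (Lp ℂ P μ) :=
  ((s.m ^ (1 / P.toReal - 1) : ℝ) : ℂ) • intF P s.S s.net

lemma kL_apply (s : FS μ) (x : Lp ℂ P μ) :
    kL P s x = ((s.m ^ (1 / P.toReal - 1) : ℝ) : ℂ) * ∫ a in s.S, x a ∂μ := rfl

lemma kL_le (s : FS μ) (x : Lp ℂ P μ) : ‖kL P s x‖ ≤ loc x s.S := by
  rw [kL_apply, norm_mul, Complex.norm_real, Real.norm_of_nonneg (by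
    have := s.m_pos; positivity)]
  have h1 := int_le x s.net
  have h2 := mul_le_mul_of_nonneg_left h1 (show 0 ≤ s.m ^ (1 / P.toReal - 1) by
    have := s.m_pos; positivity)
  refine h2.trans (le_of_eq ?_)
  have h3 : s.m ^ (1 / P.toReal - 1) * μ.real s.S ^ (1 - 1 / P.toReal) = 1 := by
    show s.m ^ (1 / P.toReal - 1) * s.m ^ (1 - 1 / P.toReal) = 1
    rw [← Real.rpow_add s.m_pos]
    have : 1 / P.toReal - 1 + (1 - 1 / P.toReal) = 0 := by ring
    rw [this, Real.rpow_zero]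
  rw [mul_left_comm, h3, mul_one]

lemma kL_eL_self (hPt : P ≠ ∞) (s : FS μ) : kL P s (eL P s) = 1 := by
  unfold eL
  rw [map_smul, kL_apply, setIntegral_indicatorConstLp s.ms, Set.inter_self, smul_eq_mul,
    Complex.real_smul, mul_one]
  have h : ((s.m ^ (-(1 / P.toReal)) : ℝ) : ℂ) * (((s.m ^ (1 / P.toReal - 1) : ℝ) : ℂ) *
      ((μ.real s.S : ℝ) : ℂ)) =
      ((s.m ^ (-(1 / P.toReal)) * (s.m ^ (1 / P.toReal - 1) * s.m) : ℝ) : ℂ) := by
    push_cast
    rfl
  rw [h]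
  have h2 : s.m ^ (-(1 / P.toReal)) * (s.m ^ (1 / P.toReal - 1) * s.m) = 1 := by
    have e1 : s.m ^ (1 / P.toReal - 1) * s.m = s.m ^ (1 / P.toReal) := by
      conv_lhs => rw [← Real.rpow_one s.m]
      rw [← Real.rpow_mul s.m_pos.le, one_mul, ← Real.rpow_add s.m_pos, sub_add_cancel]
    rw [e1, ← Real.rpow_add s.m_pos, neg_add_cancel, Real.rpow_zero]
  rw [h2, Complex.ofReal_one]

lemma kL_eL_of_disjoint (s t : FS μ) (h : Disjoint s.S t.S) : kL P s (eL P t) = 0 := by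
  unfold eL
  rw [map_smul, kL_apply, setIntegral_indicatorConstLp s.ms, Set.inter_comm,
    Set.disjoint_iff_inter_eq_empty.1 h, measureReal_empty, zero_smul, mul_zero, smul_zero]

lemma coeFn_finset_sum {I : Type} (J : Finset I) (f : I → Lp ℂ P μ) :
    ⇑(∑ i ∈ J, f i : Lp ℂ P μ) =ᵐ[μ] fun a => ∑ i ∈ J, f i a := by
  classical
  induction J using Finset.induction_on with
  | empty =>
    simp only [sum_empty]
    exact Lp.coeFn_zero _ _ _
  | insert b J hb ih =>
    rw [sum_insert hb]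
    filter_upwards [Lp.coeFn_add (f b) (∑ i ∈ J, f i), ih] with a h1 h2
    rw [h1, Pi.add_apply, h2, sum_insert hb]

lemma norm_sum_eL {I : Type} (J : Finset I) (hPt : P ≠ ∞) {s : I → FS μ}
    (hd : ∀ i j, i ≠ j → Disjoint (s i).S (s j).S) (u : I → ℂ) :
    ‖∑ i ∈ J, u i • eL P (s i)‖ ^ P.toReal ≤ ∑ i ∈ J, ‖u i‖ ^ P.toReal := by
  classical
  have hp := pos_toReal (P := P) hPt
  rw [norm_pow_Lp hPt]
  set c : I → ℝ := fun i => ‖u i‖ ^ P.toReal * (s i).m⁻¹ with hc
  have hc0 : ∀ i, 0 ≤ c i := fun i => by have := (s i).m_pos; simp only [hc]; positivity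
  have hae : ∀ᵐ a ∂μ, ‖(∑ i ∈ J, u i • eL P (s i) : Lp ℂ P μ) a‖ₑ ^ P.toReal ≤
      ∑ i ∈ J, (s i).S.indicator (fun _ => ENNReal.ofReal (c i)) a := by
    have h1 : ∀ᵐ a ∂μ, ∀ i ∈ J, (u i • eL P (s i) : Lp ℂ P μ) a =
        u i * (((s i).m ^ (-(1 / P.toReal)) : ℝ) : ℂ) * (s i).S.indicator (fun _ => (1 : ℂ)) a := by
      rw [eventually_all_finset]
      intro i _
      unfold eL
      filter_upwards [Lp.coeFn_smul (u i) ((((s i).m ^ (-(1 / P.toReal)) : ℝ) : ℂ) •
          indicatorConstLp P (s i).ms (s i).net (1 : ℂ)),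
        Lp.coeFn_smul (((s i).m ^ (-(1 / P.toReal)) : ℝ) : ℂ)
          (indicatorConstLp P (s i).ms (s i).net (1 : ℂ)),
        indicatorConstLp_coeFn (p := P) (hs := (s i).ms) (hμs := (s i).net) (c := (1 : ℂ))]
        with a h1 h2 h3
      rw [h1, Pi.smul_apply, h2, Pi.smul_apply, h3, smul_eq_mul, smul_eq_mul, mul_assoc]
    filter_upwards [coeFn_finset_sum J (fun i => (u i • eL P (s i) : Lp ℂ P μ)), h1] with a h2 h3
    rw [h2, sum_congr rfl h3]
    by_cases hex : ∃ i ∈ J, a ∈ (s i).S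
    · obtain ⟨i, hi, hai⟩ := hex
      have hother : ∀ j ∈ J, j ≠ i → a ∉ (s j).S := fun j _ hji haj =>
        Set.disjoint_left.1 (hd j i hji) haj hai
      rw [sum_eq_single i]
      · refine le_trans (le_of_eq ?_) (single_le_sum (f := fun i =>
          (s i).S.indicator (fun _ => ENNReal.ofReal (c i)) a) (fun _ _ => zero_le) hi)
        beta_reduce
        rw [Set.indicator_of_mem hai, Set.indicator_of_mem hai, mul_one, enorm_mul,
          ENNReal.mul_rpow_of_nonneg _ _ hp.le, ← ofReal_norm_eq_enorm, ← ofReal_norm_eq_enorm,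
          ENNReal.ofReal_rpow_of_nonneg (norm_nonneg _) hp.le,
          ENNReal.ofReal_rpow_of_nonneg (norm_nonneg _) hp.le, ← ENNReal.ofReal_mul (by positivity),
          Complex.norm_real, Real.norm_of_nonneg (by have := (s i).m_pos; positivity),
          ← Real.rpow_mul (s i).m_pos.le, neg_mul, one_div_mul_cancel hp.ne', Real.rpow_neg_one]
      · intro j hj hji
        rw [Set.indicator_of_notMem (hother j hj hji), mul_zero]
      · intro h; exact absurd hi h
    · push Not at hex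
      rw [sum_eq_zero]
      · rw [enorm_zero, ENNReal.zero_rpow_of_pos hp]
        exact zero_le
      · intro j hj
        rw [Set.indicator_of_notMem (hex j hj), mul_zero]
  have h2 : ∫⁻ a, ∑ i ∈ J, (s i).S.indicator (fun _ => ENNReal.ofReal (c i)) a ∂μ =
      ∑ i ∈ J, ENNReal.ofReal (‖u i‖ ^ P.toReal) := by
    rw [lintegral_finsetSum _ fun i _ => measurable_const.indicator (s i).ms]
    refine sum_congr rfl fun i _ => ?_
    rw [lintegral_indicator_const (s i).ms]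
    have h3 : μ (s i).S = ENNReal.ofReal (s i).m := (ENNReal.ofReal_toReal (s i).net).symm
    rw [h3, ← ENNReal.ofReal_mul (hc0 i)]
    congr 1
    simp only [hc]
    rw [mul_assoc, inv_mul_cancel₀ (s i).m_pos.ne', mul_one]
  have h3 := (lintegral_mono_ae hae).trans h2.le
  rw [← ENNReal.ofReal_sum_of_nonneg fun i _ => by positivity] at h3
  have h4 := ENNReal.toReal_mono ENNReal.ofReal_ne_top h3
  rwa [ENNReal.toReal_ofReal (sum_nonneg fun i _ => by positivity)] at h4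

/-- Disjoint sets give a block. -/
lemma blk_L (hPt : P ≠ ∞) {I : Type} [Fintype I] {s : I → FS μ}
    (hd : ∀ i j, i ≠ j → Disjoint (s i).S (s j).S) :
    Blk P.toReal (fun i => eL P (s i)) (fun i => kL P (s i)) := by
  classical
  have hp := pos_toReal (P := P) hPt
  refine ⟨fun u => norm_sum_eL univ hPt hd u, fun x => ?_, fun u i => ?_⟩
  · refine le_trans (sum_le_sum fun i _ => ?_) (sum_loc univ hPt x (fun i => (s i).ms) hd)
    exact Real.rpow_le_rpow (norm_nonneg _) (kL_le _ _) hp.le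
  · rw [map_sum, sum_eq_single i]
    · rw [map_smul, kL_eL_self hPt, smul_eq_mul, mul_one]
    · intro j _ hji
      rw [map_smul, kL_eL_of_disjoint _ _ (hd i j hji.symm), smul_zero]
    · intro h; exact absurd (mem_univ _) h

end Pool.Agent.J4.H89
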