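import Pool.Agent.J4.H89.LB2

/-!
# Approximation of `L_p(μ)` by blocks
-/

set_option autoImplicit false
open Finset Filter Topology MeasureTheory TopologicalSpace Pool.Agent.Y280
open scoped ENNReal symmDiff

namespace Pool.Agent.J4.H89

variable {α : Type} [MeasurableSpace α] {μ : Measure α} {P : ℝ≥0∞} [hP : Fact (1 ≤ P)]

lemma coe_vec {I : Type} (J : Finset I) (s : I → FS μ) (u : I → ℂ) :
    ⇑(∑ i ∈ J, u i • eL P (s i) : Lp ℂ P μ) =ᵐ[μ] fun a => ∑ i ∈ J,
      u i * (((s i).m ^ (-(1 / P.toReal)) : ℝ) : ℂ) * (s i).S.indicator (fun _ => (1 : ℂ)) a := by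
  have h1 : ∀ᵐ a ∂μ, ∀ i ∈ J, (u i • eL P (s i) : Lp ℂ P μ) a =
      u i * (((s i).m ^ (-(1 / P.toReal)) : ℝ) : ℂ) * (s i).S.indicator (fun _ => (1 : ℂ)) a := by
    rw [eventually_all_finset]
    intro i _
    unfold eL
    filter_upwards [Lp.coeFn_smul (u i) ((((s i).m ^ (-(1 / P.toReal)) : ℝ) : ℂ) •
        indicatorConstLp P (s i).ms (s i).net (1 : ℂ)),
      Lp.coeFn_smul (((s i).m ^ (-(1 / P.toReal)) : ℝ) : ℂ)
        (indicatorConstLp P (s i).ms (s i).net (1 : ℂ)),
      indicatorConstLp_coeFn (p := P) (hs := (s i).ms) (hμs := (s i).net) (c := (1 : ℂ))]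
      with a h1 h2 h3
    rw [h1, Pi.smul_apply, h2, Pi.smul_apply, h3, smul_eq_mul, smul_eq_mul, mul_assoc]
  filter_upwards [coeFn_finset_sum J (fun i => (u i • eL P (s i) : Lp ℂ P μ)), h1] with a h2 h3
  rw [h2, sum_congr rfl h3]

/-- Every finite set of functions is approximated by a block of disjoint sets. -/
lemma exists_sets (hPt : P ≠ ∞) (X : Finset (Lp ℂ P μ)) {ε : ℝ} (hε : 0 < ε) :
    ∃ (N : ℕ) (s : Fin N → FS μ), (∀ i j, i ≠ j → Disjoint (s i).S (s j).S) ∧
      ∀ x ∈ X, ‖vecB (fun i => eL P (s i)) (fun i => kL P (s i) x) - x‖ ≤ ε := by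
  classical
  have hp := pos_toReal (P := P) hPt
  set F : α → (X → ℂ) := fun a x => (x : Lp ℂ P μ) a with hF
  have hFm : MemLp F P μ := memLp_pi_iff.2 fun x => Lp.memLp (x : Lp ℂ P μ)
  obtain ⟨G, hG, hGm⟩ := hFm.exists_simpleFunc_eLpNorm_sub_lt hPt
    (show ENNReal.ofReal (ε / 2) ≠ 0 by
      rw [Ne, ENNReal.ofReal_eq_zero, not_le]; positivity)
  set J : Finset (X → ℂ) := G.range.filter fun v => v ≠ 0 ∧ μ (G ⁻¹' {v}) ≠ 0 with hJ
  have hfin : ∀ v : X → ℂ, v ≠ 0 → μ (G ⁻¹' {v}) ≠ ∞ := fun v hv =>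
    (SimpleFunc.measure_preimage_lt_top_of_memLp P_ne_zero hPt G hGm v hv).ne
  set v : Fin J.card → (X → ℂ) := fun i => (J.equivFin.symm i : X → ℂ) with hv
  have hvJ : ∀ i, v i ∈ J := fun i => (J.equivFin.symm i).2
  have hvi : Function.Injective v := fun i j hij =>
    J.equivFin.symm.injective (Subtype.ext hij)
  have hv0 : ∀ i, v i ≠ 0 := fun i => (mem_filter.1 (hvJ i)).2.1
  set s : Fin J.card → FS μ := fun i => ⟨G ⁻¹' {v i}, G.measurableSet_fiber _,
    (mem_filter.1 (hvJ i)).2.2, hfin _ (hv0 i)⟩ with hs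
  have hsS : ∀ i, (s i).S = G ⁻¹' {v i} := fun i => rfl
  have hd : ∀ i j, i ≠ j → Disjoint (s i).S (s j).S := by
    intro i j hij
    rw [Set.disjoint_left]
    intro a hi hj
    rw [hsS] at hi hj
    exact hij (hvi (Eq.trans (Eq.symm hi) hj))
  have hb := blk_L (P := P) hPt hd
  refine ⟨J.card, s, hd, fun x hx => ?_⟩
  -- the simple function
  set u : Fin J.card → ℂ := fun i => v i ⟨x, hx⟩ * (((s i).m ^ (1 / P.toReal) : ℝ) : ℂ) with hu
  set g : Lp ℂ P μ := vecB (fun i => eL P (s i)) u with hg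
  have hae : ∀ᵐ a ∂μ, g a = G a ⟨x, hx⟩ := by
    have hnull : ∀ᵐ a ∂μ, ∀ w ∈ G.range, μ (G ⁻¹' {w}) = 0 → G a ≠ w := by
      rw [eventually_all_finset]
      intro w _
      by_cases h0 : μ (G ⁻¹' {w}) = 0
      · have : ∀ᵐ a ∂μ, a ∉ G ⁻¹' {w} := measure_eq_zero_iff_ae_notMem.1 h0
        filter_upwards [this] with a ha _ haw
        exact ha haw
      · exact Eventually.of_forall fun a h => absurd h h0
    filter_upwards [coe_vec (P := P) univ s u, hnull] with a h1 h2
    have h3 : g a = ∑ i, v i ⟨x, hx⟩ * (s i).S.indicator (fun _ => (1 : ℂ)) a := by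
      rw [hg]
      unfold vecB
      rw [h1]
      refine sum_congr rfl fun i _ => ?_
      have e1 : (((s i).m ^ (1 / P.toReal) : ℝ) : ℂ) * (((s i).m ^ (-(1 / P.toReal)) : ℝ) : ℂ) =
          1 := by
        rw [← Complex.ofReal_mul, ← Real.rpow_add (s i).m_pos, add_neg_cancel, Real.rpow_zero,
          Complex.ofReal_one]
      rw [hu]
      beta_reduce
      rw [mul_assoc (v i ⟨x, hx⟩), e1, mul_one]
    rw [h3]
    by_cases hG0 : G a = 0
    · rw [sum_eq_zero]
      · rw [hG0]; rfl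
      · intro i _
        rw [Set.indicator_of_notMem, mul_zero]
        intro hi
        rw [hsS] at hi
        exact hv0 i (hG0 ▸ (Eq.symm hi))
    · have hmem : G a ∈ J := by
        rw [hJ, mem_filter]
        exact ⟨G.mem_range_self a, hG0, fun h0 => h2 _ (G.mem_range_self a) h0 rfl⟩
      set i0 := J.equivFin ⟨G a, hmem⟩ with hi0
      have hvi0 : v i0 = G a := by
        rw [hv]
        simp [hi0]
      rw [sum_eq_single i0]
      · rw [Set.indicator_of_mem, mul_one, hvi0]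
        rw [hsS, hvi0]
        rfl
      · intro j _ hj
        rw [Set.indicator_of_notMem, mul_zero]
        intro hja
        rw [hsS] at hja
        exact hj (hvi (Eq.trans (Eq.symm hja) hvi0.symm))
      · intro h; exact absurd (mem_univ _) h
  have hxg : ‖x - g‖ ≤ ε / 2 := by
    rw [Lp.norm_def]
    have h1 : eLpNorm (⇑(x - g)) P μ ≤ eLpNorm (F - ⇑G) P μ := by
      refine eLpNorm_mono_ae ?_
      filter_upwards [Lp.coeFn_sub x g, hae] with a h2 h3
      rw [h2, Pi.sub_apply, h3]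
      exact norm_le_pi_norm ((F - ⇑G) a) ⟨x, hx⟩
    have h2 := ENNReal.toReal_mono ENNReal.ofReal_ne_top (h1.trans hG.le)
    rwa [ENNReal.toReal_ofReal (by positivity)] at h2
  have hRg : vecB (fun i => eL P (s i)) (fun i => kL P (s i) g) = g := by
    rw [hg]
    congr 1
    ext i
    exact hb.k_vecB u i
  have hR : vecB (fun i => eL P (s i)) (fun i => kL P (s i) x) =
      vecB (fun i => eL P (s i)) (fun i => kL P (s i) (x - g)) + g := by
    refine Eq.trans ?_ (congrArg (fun z => vecB (fun i => eL P (s i))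
      (fun i => kL P (s i) (x - g)) + z) hRg)
    unfold vecB
    rw [← sum_add_distrib]
    refine sum_congr rfl fun i _ => ?_
    beta_reduce
    rw [map_sub, sub_smul, sub_add_cancel]
  rw [hR]
  have e : vecB (fun i => eL P (s i)) (fun i => kL P (s i) (x - g)) + g - x =
      vecB (fun i => eL P (s i)) (fun i => kL P (s i) (x - g)) - (x - g) := by abel
  rw [e]
  refine (norm_sub_le _ _).trans ?_
  have h1 := hb.norm_R hp (x - g)
  linarith

lemma AX_Lp (hPt : P ≠ ∞) : AX P.toReal (Lp ℂ P μ) := by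
  intro X ε hε
  obtain ⟨N, s, hd, h⟩ := exists_sets hPt X hε
  exact ⟨N, _, _, blk_L hPt hd, h⟩

/-- Blocks of disjoint sets which approximate finitely many vectors and functionals. -/
lemma exists_sets' (hPt : P ≠ ∞) {q : ℝ} (hpq : P.toReal.HolderConjugate q)
    (X : Finset (Lp ℂ P μ)) (Y : Finset (StrongDual ℂ (Lp ℂ P μ))) {ε : ℝ} (hε : 0 < ε) :
    ∃ (N : ℕ) (s : Fin N → FS μ), (∀ i j, i ≠ j → Disjoint (s i).S (s j).S) ∧
      (∀ x ∈ X, ‖vecB (fun i => eL P (s i)) (fun i => kL P (s i) x) - x‖ ≤ ε) ∧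
      ∀ y ∈ Y, ‖fnlB (fun i => kL P (s i)) (fun i => y (eL P (s i))) - y‖ ≤ ε := by
  classical
  choose x₀ δ hδ h using fun y : StrongDual ℂ (Lp ℂ P μ) =>
    dual_approx hpq (AX_Lp hPt) y hε
  obtain ⟨η, hη, hηδ⟩ : ∃ η > 0, ∀ y ∈ Y, η ≤ δ y := by
    induction Y using Finset.induction_on with
    | empty => exact ⟨1, one_pos, fun a ha => absurd ha (notMem_empty a)⟩
    | insert b s _ ih =>
      obtain ⟨ε', hε', h'⟩ := ih
      refine ⟨min ε' (δ b), lt_min hε' (hδ b), fun a ha => ?_⟩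
      rcases mem_insert.1 ha with rfl | ha
      · exact min_le_right _ _
      · exact (min_le_left _ _).trans (h' a ha)
  obtain ⟨N, s, hd, h1⟩ := exists_sets hPt (X ∪ Y.image x₀) (lt_min hε hη)
  refine ⟨N, s, hd, fun x hx => ?_, fun y hy => ?_⟩
  · exact (h1 x (mem_union_left _ hx)).trans (min_le_left _ _)
  · refine h y N _ _ (blk_L hPt hd) ?_
    exact (h1 _ (mem_union_right _ (mem_image_of_mem _ hy))).trans
      ((min_le_right _ _).trans (hηδ y hy))

/-- The dual of a separable `L_p(μ)` is separable. -/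
lemma sep_dual (hPt : P ≠ ∞) {q : ℝ} (hpq : P.toReal.HolderConjugate q)
    [SeparableSpace (Lp ℂ P μ)] : SeparableSpace (StrongDual ℂ (Lp ℂ P μ)) := by
  classical
  have hp := pos_toReal (P := P) hPt
  haveI : Nonempty (Lp ℂ P μ) := ⟨0⟩
  set d := denseSeq (Lp ℂ P μ) with hd_def
  have hd : DenseRange d := denseRange_denseSeq _
  have h1 : ∀ n m : ℕ, ∃ (N : ℕ) (s : Fin N → FS μ),
      (∀ i j, i ≠ j → Disjoint (s i).S (s j).S) ∧
      ‖vecB (fun i => eL P (s i)) (fun i => kL P (s i) (d n)) - d n‖ ≤ 1 / ((m : ℝ) + 1) := by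
    intro n m
    obtain ⟨N, s, hs, h⟩ := exists_sets hPt {d n} (show 0 < 1 / ((m : ℝ) + 1) by positivity)
    exact ⟨N, s, hs, h _ (mem_singleton_self _)⟩
  choose N s hs h using h1
  have hsep : IsSeparable (⋃ (z : ℕ × ℕ), Set.range fun v : Fin (N z.1 z.2) → ℂ =>
      fnlB (fun i => kL P (s z.1 z.2 i)) v) := by
    refine IsSeparable.iUnion fun z => isSeparable_range ?_
    unfold fnlB
    fun_prop
  rw [← isSeparable_univ_iff]
  refine hsep.closure.mono ?_
  intro y _
  rw [Metric.mem_closure_iff]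
  intro ε hε
  obtain ⟨x₀, δ, hδ, hy⟩ := dual_approx hpq (AX_Lp (μ := μ) hPt) y (show 0 < ε / 2 by positivity)
  obtain ⟨n, hn⟩ := hd.exists_dist_lt x₀ (show 0 < δ / 3 by positivity)
  obtain ⟨m, hm⟩ := exists_nat_one_div_lt (show 0 < δ / 3 by positivity)
  have hb := blk_L (P := P) hPt (hs n m)
  refine ⟨fnlB (fun i => kL P (s n m i)) (fun i => y (eL P (s n m i))),
    Set.mem_iUnion.2 ⟨(n, m), ⟨_, rfl⟩⟩, ?_⟩
  rw [dist_comm, dist_eq_norm]
  refine (hy _ _ _ hb ?_).trans_lt (by linarith)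
  have e : (vecB (fun i => eL P (s n m i)) fun i => kL P (s n m i) x₀) - x₀ =
      (vecB (fun i => eL P (s n m i)) fun i => kL P (s n m i) (x₀ - d n)) +
      ((vecB (fun i => eL P (s n m i)) fun i => kL P (s n m i) (d n)) - d n) - (x₀ - d n) := by
    have : (vecB (fun i => eL P (s n m i)) fun i => kL P (s n m i) (x₀ - d n)) =
        (vecB (fun i => eL P (s n m i)) fun i => kL P (s n m i) x₀) -
          vecB (fun i => eL P (s n m i)) fun i => kL P (s n m i) (d n) := by
      unfold vecB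
      rw [← sum_sub_distrib]
      refine sum_congr rfl fun i _ => ?_
      beta_reduce
      rw [map_sub, sub_smul]
    rw [this]
    abel
  rw [e]
  have h2 := hb.norm_R hp (x₀ - d n)
  rw [dist_eq_norm] at hn
  refine (norm_sub_le _ _).trans ?_
  have h3 := norm_add_le (vecB (fun i => eL P (s n m i)) fun i => kL P (s n m i) (x₀ - d n))
      ((vecB (fun i => eL P (s n m i)) fun i => kL P (s n m i) (d n)) - d n)
  have h4 := h n m
  linarith

end Pool.Agent.J4.H89
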