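import Pool.Agent.J4.H89.LB3
import Pool.Agent.Y280.HLp

/-!
# Room for many copies of a block in `L_p(μ)`
-/

set_option autoImplicit false
open Finset Filter Topology MeasureTheory TopologicalSpace Pool.Agent.Y280
open scoped ENNReal symmDiff

namespace Pool.Agent.J4.H89

variable {α : Type} [MeasurableSpace α] {μ : Measure α} {P : ℝ≥0∞} [hP : Fact (1 ≤ P)]

/-- Build a set of finite positive measure. -/
def mkFS (t : Set α) (h1 : MeasurableSet t) (h2 : μ t ≠ 0) (h3 : μ t ≠ ∞) : FS μ :=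
  ⟨t, h1, h2, h3⟩

/-- Pairwise disjoint sets of finite positive measure. -/
def DisjSeq (D : ℕ → FS μ) : Prop := ∀ i j, i ≠ j → Disjoint (D i).S (D j).S

lemma tendsto_inter {D : ℕ → FS μ} (hD : DisjSeq D) (s : FS μ) :
    Tendsto (fun j => μ (s.S ∩ (D j).S)) atTop (𝓝 0) := by
  apply ENNReal.tendsto_atTop_zero_of_tsum_ne_top
  have h1 : ∑' j, μ (s.S ∩ (D j).S) = μ (⋃ j, s.S ∩ (D j).S) := by
    rw [measure_iUnion]
    · intro i j hij
      exact (hD i j hij).mono Set.inter_subset_right Set.inter_subset_right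
    · exact fun j => s.ms.inter (D j).ms
  rw [h1]
  exact ((measure_mono (Set.iUnion_subset fun j => Set.inter_subset_left)).trans_lt
    s.net.lt_top).ne

/-- The part of `s` outside the sets `D L, …, D (L + M - 1)`. -/
def cut (D : ℕ → FS μ) (M L : ℕ) (s : FS μ) : Set α := s.S \ ⋃ j ∈ range M, (D (L + j)).S

lemma cut_subset (D : ℕ → FS μ) (M L : ℕ) (s : FS μ) : cut D M L s ⊆ s.S := Set.sdiff_subset

lemma cut_ms (D : ℕ → FS μ) (M L : ℕ) (s : FS μ) : MeasurableSet (cut D M L s) :=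
  s.ms.diff (Finset.measurableSet_biUnion _ fun j _ => (D (L + j)).ms)

lemma cut_net (D : ℕ → FS μ) (M L : ℕ) (s : FS μ) : μ (cut D M L s) ≠ ∞ :=
  ((measure_mono (cut_subset D M L s)).trans_lt s.net.lt_top).ne

lemma tendsto_diff {D : ℕ → FS μ} (hD : DisjSeq D) (M : ℕ) (s : FS μ) :
    Tendsto (fun L => μ (s.S \ cut D M L s)) atTop (𝓝 0) := by
  have h1 : ∀ L, μ (s.S \ cut D M L s) ≤ ∑ j ∈ range M, μ (s.S ∩ (D (L + j)).S) := by
    intro L
    have e : s.S \ cut D M L s = ⋃ j ∈ range M, s.S ∩ (D (L + j)).S := by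
      ext a
      simp only [cut, Set.mem_sdiff, Set.mem_iUnion, Set.mem_inter_iff, not_and, not_not,
        exists_prop]
      constructor
      · rintro ⟨ha, h⟩
        obtain ⟨j, hj, haj⟩ := h ha
        exact ⟨j, hj, ha, haj⟩
      · rintro ⟨j, hj, ha, haj⟩
        exact ⟨ha, fun _ => ⟨j, hj, haj⟩⟩
    rw [e]
    exact measure_biUnion_finset_le _ _
  have h2 : Tendsto (fun L => ∑ j ∈ range M, μ (s.S ∩ (D (L + j)).S)) atTop
      (𝓝 (∑ _j ∈ range M, 0)) := by
    refine tendsto_finsetSum _ fun j _ => ?_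
    exact (tendsto_inter hD s).comp (tendsto_add_atTop_nat j)
  rw [sum_const_zero] at h2
  exact tendsto_of_tendsto_of_tendsto_of_le_of_le tendsto_const_nhds h2 (fun _ => zero_le) h1

lemma tendsto_real {D : ℕ → FS μ} (hD : DisjSeq D) (M : ℕ) (s : FS μ) :
    Tendsto (fun L => μ.real (cut D M L s)) atTop (𝓝 s.m) := by
  have h1 : ∀ L, μ.real (cut D M L s) = s.m - (μ (s.S \ cut D M L s)).toReal := by
    intro L
    have h2 : μ.real (s.S \ cut D M L s) = μ.real s.S - μ.real (cut D M L s) :=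
      measureReal_sdiff (cut_subset D M L s) (cut_ms D M L s) s.net
    have h3 : (μ (s.S \ cut D M L s)).toReal = s.m - μ.real (cut D M L s) := h2
    rw [h3]
    ring
  have h2 := ((ENNReal.tendsto_toReal ENNReal.zero_ne_top).comp (tendsto_diff hD M s)).const_sub s.m
  rw [ENNReal.toReal_zero, sub_zero] at h2
  exact h2.congr fun L => (h1 L).symm

/-- The rough normalised indicator function. -/
noncomputable def eR (P : ℝ≥0∞) [Fact (1 ≤ P)] (t : Set α) (ht : MeasurableSet t)
    (hμ : μ t ≠ ∞) : Lp ℂ P μ :=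
  ((μ.real t ^ (-(1 / P.toReal)) : ℝ) : ℂ) • indicatorConstLp P ht hμ (1 : ℂ)

/-- The rough normalised integral. -/
noncomputable def kR (P : ℝ≥0∞) [Fact (1 ≤ P)] (t : Set α) (hμ : μ t ≠ ∞) :
    StrongDual ℂ (Lp ℂ P μ) :=
  ((μ.real t ^ (1 / P.toReal - 1) : ℝ) : ℂ) • intF P t hμ

lemma tendsto_eR (hPt : P ≠ ∞) {D : ℕ → FS μ} (hD : DisjSeq D) (M : ℕ) (s : FS μ) :
    Tendsto (fun L => eR P (cut D M L s) (cut_ms D M L s) (cut_net D M L s)) atTop
      (𝓝 (eL P s)) := by
  unfold eR eL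
  refine Tendsto.smul ?_ ?_
  · refine (Complex.continuous_ofReal.tendsto _).comp ?_
    exact (tendsto_real hD M s).rpow_const (Or.inl s.m_pos.ne')
  · refine tendsto_indicatorConstLp_set (hs := s.ms) (hμs := s.net) hPt ?_
    have e : ∀ L, cut D M L s ∆ s.S = s.S \ cut D M L s := fun L => by
      rw [Set.symmDiff_def, Set.sdiff_eq_empty.2 (cut_subset D M L s), Set.empty_union]
    simp only [e]
    exact tendsto_diff hD M s

lemma tendsto_kR (hP1 : 1 < P) (hPt : P ≠ ∞) {D : ℕ → FS μ} (hD : DisjSeq D) (M : ℕ) (s : FS μ) :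
    Tendsto (fun L => kR P (cut D M L s) (cut_net D M L s)) atTop (𝓝 (kL P s)) := by
  have hp1 := one_lt_toReal hP1 hPt
  have hexp : 0 < 1 - 1 / P.toReal := by
    rw [sub_pos, div_lt_one (by linarith)]
    exact hp1
  unfold kR kL
  refine Tendsto.smul ?_ ?_
  · refine (Complex.continuous_ofReal.tendsto _).comp ?_
    exact (tendsto_real hD M s).rpow_const (Or.inl s.m_pos.ne')
  · rw [tendsto_iff_norm_sub_tendsto_zero]
    have hdn : ∀ L, μ (s.S \ cut D M L s) ≠ ∞ := fun L =>
      ((measure_mono Set.sdiff_subset).trans_lt s.net.lt_top).ne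
    have h1 : ∀ L, ‖intF P (cut D M L s) (cut_net D M L s) - intF P s.S s.net‖ ≤
        μ.real (s.S \ cut D M L s) ^ (1 - 1 / P.toReal) := by
      intro L
      have e : intF P (cut D M L s) (cut_net D M L s) - intF P s.S s.net =
          -intF P (s.S \ cut D M L s) (hdn L) := by
        ext x
        rw [_root_.sub_apply, _root_.neg_apply, intF_apply, intF_apply, intF_apply]
        have h2 := setIntegral_union (μ := μ) (f := x) (s := s.S \ cut D M L s)
          (t := cut D M L s) Set.disjoint_sdiff_left (cut_ms D M L s)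
          (integrableOn_Lp x (hdn L)) (integrableOn_Lp x (cut_net D M L s))
        rw [Set.sdiff_union_of_subset (cut_subset D M L s)] at h2
        rw [h2]
        ring
      rw [e, norm_neg]
      exact norm_intF_le _
    have h2 : Tendsto (fun L => μ.real (s.S \ cut D M L s) ^ (1 - 1 / P.toReal)) atTop (𝓝 0) := by
      have h3 := ((ENNReal.tendsto_toReal ENNReal.zero_ne_top).comp
        (tendsto_diff hD M s)).rpow_const (p := 1 - 1 / P.toReal) (Or.inr hexp.le)
      rw [ENNReal.toReal_zero, Real.zero_rpow hexp.ne'] at h3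
      exact h3
    exact squeeze_zero (fun L => norm_nonneg _) h1 h2

lemma tendsto_kD (hPt : P ≠ ∞) {D : ℕ → FS μ} (hD : DisjSeq D) (x : Lp ℂ P μ) :
    Tendsto (fun j => kL P (D j) x) atTop (𝓝 0) := by
  have hp := pos_toReal (P := P) hPt
  rw [tendsto_zero_iff_norm_tendsto_zero]
  have h1 : Summable fun j => ‖kL P (D j) x‖ ^ P.toReal := by
    refine summable_of_sum_range_le (c := ‖x‖ ^ P.toReal) (fun _ => by positivity) fun n => ?_
    refine le_trans (sum_le_sum fun i _ => ?_)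
      (sum_loc (range n) hPt x (fun i => (D i).ms) hD)
    exact Real.rpow_le_rpow (norm_nonneg _) (kL_le _ _) hp.le
  have h2 := h1.tendsto_atTop_zero.rpow_const (p := 1 / P.toReal) (Or.inr (by positivity))
  rw [Real.zero_rpow (by positivity)] at h2
  refine h2.congr fun j => ?_
  rw [← Real.rpow_mul (norm_nonneg _), mul_one_div_cancel hp.ne', Real.rpow_one]

lemma tendsto_yD (hPt : P ≠ ∞) {q : ℝ} (hpq : P.toReal.HolderConjugate q) {D : ℕ → FS μ}
    (hD : DisjSeq D) (y : StrongDual ℂ (Lp ℂ P μ)) :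
    Tendsto (fun j => y (eL P (D j))) atTop (𝓝 0) := by
  have hq := hpq.symm.pos
  rw [tendsto_zero_iff_norm_tendsto_zero]
  have h1 : Summable fun j => ‖y (eL P (D j))‖ ^ q := by
    refine summable_of_sum_range_le (c := ‖y‖ ^ q) (fun _ => by positivity) fun n => ?_
    have h2 := sum_coord_dual hpq (blk_L (P := P) hPt (I := Fin n) (s := fun i => D i)
      fun i j hij => hD _ _ fun h => hij (Fin.ext h)) y
    rw [← Fin.sum_univ_eq_sum_range (fun j => ‖y (eL P (D j))‖ ^ q) n]
    exact h2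
  have h2 := h1.tendsto_atTop_zero.rpow_const (p := 1 / q) (Or.inr (by positivity))
  rw [Real.zero_rpow (by positivity)] at h2
  refine h2.congr fun j => ?_
  rw [← Real.rpow_mul (norm_nonneg _), mul_one_div_cancel hq.ne', Real.rpow_one]

lemma ext_L (hP1 : 1 < P) (hPt : P ≠ ∞) {q : ℝ} (hpq : P.toReal.HolderConjugate q)
    {D : ℕ → FS μ} (hD : DisjSeq D) {N : ℕ} {s : Fin N → FS μ}
    (hd : ∀ i j, i ≠ j → Disjoint (s i).S (s j).S) :
    Ext P.toReal (fun i => eL P (s i)) (fun i => kL P (s i)) := by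
  classical
  intro n X Y ε hε
  set M := N * (n + 1) with hM
  -- all conditions hold far away
  have h1 : ∀ᶠ L in atTop, ∀ i : Fin N, μ (cut D M L (s i)) ≠ 0 := by
    rw [eventually_all]
    intro i
    have h2 := (tendsto_real hD M (s i)).eventually (lt_mem_nhds (s i).m_pos)
    filter_upwards [h2] with L hL h0
    rw [Measure.real, h0, ENNReal.toReal_zero] at hL
    exact lt_irrefl _ hL
  have h2 : ∀ᶠ L in atTop, ∀ i : Fin N,
      ‖eR P (cut D M L (s i)) (cut_ms D M L (s i)) (cut_net D M L (s i)) - eL P (s i)‖ ≤ ε := by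
    rw [eventually_all]
    intro i
    have h3 := tendsto_iff_norm_sub_tendsto_zero.1 (tendsto_eR hPt hD M (s i))
    exact (h3.eventually (gt_mem_nhds hε)).mono fun L hL => hL.le
  have h3 : ∀ᶠ L in atTop, ∀ i : Fin N,
      ‖kR P (cut D M L (s i)) (cut_net D M L (s i)) - kL P (s i)‖ ≤ ε := by
    rw [eventually_all]
    intro i
    have h3 := tendsto_iff_norm_sub_tendsto_zero.1 (tendsto_kR hP1 hPt hD M (s i))
    exact (h3.eventually (gt_mem_nhds hε)).mono fun L hL => hL.le
  have h4 : ∀ᶠ L in atTop, ∀ x ∈ X, ‖kL P (D L) x‖ ≤ ε := by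
    rw [eventually_all_finset]
    intro x _
    exact ((tendsto_zero_iff_norm_tendsto_zero.1 (tendsto_kD hPt hD x)).eventually
      (gt_mem_nhds hε)).mono fun L hL => hL.le
  have h5 : ∀ᶠ L in atTop, ∀ y ∈ Y, ‖y (eL P (D L))‖ ≤ ε := by
    rw [eventually_all_finset]
    intro y _
    exact ((tendsto_zero_iff_norm_tendsto_zero.1 (tendsto_yD hPt hpq hD y)).eventually
      (gt_mem_nhds hε)).mono fun L hL => hL.le
  obtain ⟨L0, hL0⟩ := eventually_atTop.1 (h4.and h5)
  obtain ⟨L, hL1, hL2, hL3, hL4⟩ := (h1.and (h2.and (h3.and (eventually_ge_atTop L0)))).exists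
  have hfar : ∀ j, (∀ x ∈ X, ‖kL P (D (L + j)) x‖ ≤ ε) ∧ ∀ y ∈ Y, ‖y (eL P (D (L + j)))‖ ≤ ε :=
    fun j => hL0 _ (hL4.trans (Nat.le_add_right _ _))
  set κ : Fin N × Fin (n + 1) → ℕ := fun z => (finProdFinEquiv z : ℕ) with hκ
  have hκM : ∀ z, κ z ∈ range M := fun z => by
    rw [mem_range]
    exact (finProdFinEquiv z).2
  have hκi : Function.Injective κ := fun z w h => finProdFinEquiv.injective (Fin.ext h)
  set t : Fin N × Fin (n + 1) → FS μ := fun z =>
    if z.2 = 0 then mkFS (cut D M L (s z.1)) (cut_ms D M L (s z.1)) (hL1 z.1)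
      (cut_net D M L (s z.1)) else D (L + κ z) with ht
  have ht0 : ∀ i, t (i, 0) =
      mkFS (cut D M L (s i)) (cut_ms D M L (s i)) (hL1 i) (cut_net D M L (s i)) :=
    fun i => if_pos rfl
  have ht1 : ∀ i a, a ≠ 0 → t (i, a) = D (L + κ (i, a)) := fun i a ha => if_neg ha
  have hcutD : ∀ (i : Fin N) (z : Fin N × Fin (n + 1)),
      Disjoint (cut D M L (s i)) (D (L + κ z)).S := by
    intro i z
    rw [Set.disjoint_left]
    intro a ha haz
    exact ha.2 (Set.mem_biUnion (hκM z) haz)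
  have htd : ∀ z w, z ≠ w → Disjoint (t z).S (t w).S := by
    rintro ⟨i, a⟩ ⟨j, b⟩ hzw
    by_cases ha : a = 0
    · by_cases hb : b = 0
      · subst ha hb
        have hij : i ≠ j := fun h => hzw (by rw [h])
        rw [ht0, ht0]
        exact (hd i j hij).mono (cut_subset _ _ _ _) (cut_subset _ _ _ _)
      · subst ha
        rw [ht0, ht1 j b hb]
        exact hcutD i (j, b)
    · by_cases hb : b = 0
      · subst hb
        rw [ht0, ht1 i a ha]
        exact (hcutD j (i, a)).symm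
      · rw [ht1 i a ha, ht1 j b hb]
        refine hD _ _ fun h => hzw (hκi ?_)
        omega
  refine ⟨fun z => eL P (t z), fun z => kL P (t z), blk_L hPt htd, ?_, ?_, ?_, ?_⟩
  · intro i
    beta_reduce
    rw [ht0]
    exact hL2 i
  · intro i
    beta_reduce
    rw [ht0]
    exact hL3 i
  · intro i a ha x hx
    beta_reduce
    rw [ht1 i a ha]
    exact (hfar _).1 x hx
  · intro i a ha y hy
    beta_reduce
    rw [ht1 i a ha]
    exact (hfar _).2 y hy

/-- **`L_p(μ)` is approximated by blocks with room for copies.** -/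
theorem blockSys_L (hP1 : 1 < P) (hPt : P ≠ ∞) {D : ℕ → FS μ} (hD : DisjSeq D) :
    BlockSys P.toReal (Lp ℂ P μ) := by
  intro X Y ε hε
  have hpq := Real.HolderConjugate.conjExponent (one_lt_toReal hP1 hPt)
  obtain ⟨N, s, hd, h1, h2⟩ := exists_sets' hPt hpq X Y hε
  exact ⟨N, _, _, blk_L hPt hd, ext_L hP1 hPt hpq hD hd, h1, h2⟩

end Pool.Agent.J4.H89
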