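import Pool.Agent.J4.H89.LB4
import Pool.Agent.Y280.HFin

/-!
# Hyperinvariant subspaces of typical contractions of `L_p(μ)`
-/

set_option autoImplicit false
open Finset Filter Topology MeasureTheory TopologicalSpace Pool.Agent.Y280
open scoped ENNReal symmDiff

namespace Pool.Agent.J4.H89

variable {α : Type} [MeasurableSpace α] {μ : Measure α} {P : ℝ≥0∞} [hP : Fact (1 ≤ P)]

/-- There are arbitrarily many disjoint sets inside `A`. -/
def Rich (μ : Measure α) (A : Set α) : Prop :=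
  ∀ n : ℕ, ∃ (ι : Type) (_ : Fintype ι) (s : ι → FS μ), n ≤ Fintype.card ι ∧
    (∀ i j, i ≠ j → Disjoint (s i).S (s j).S) ∧ ∀ i, (s i).S ⊆ A

lemma Rich.mono {A B : Set α} (h : Rich μ A) (hAB : A ⊆ B) : Rich μ B := by
  intro n
  obtain ⟨ι, hι, s, h1, h2, h3⟩ := h n
  exact ⟨ι, hι, s, h1, h2, fun i => (h3 i).trans hAB⟩

lemma sub_rich {A B : Set α} (hB : MeasurableSet B) {ι : Type} [Fintype ι] {s : ι → FS μ}
    (hd : ∀ i j, i ≠ j → Disjoint (s i).S (s j).S) (hA : ∀ i, (s i).S ⊆ A) :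
    ∃ (κ : Type) (_ : Fintype κ) (t : κ → FS μ),
      Fintype.card κ = Fintype.card {i // μ ((s i).S ∩ B) ≠ 0} ∧
      (∀ i j, i ≠ j → Disjoint (t i).S (t j).S) ∧ ∀ i, (t i).S ⊆ A ∩ B := by
  classical
  refine ⟨{i // μ ((s i).S ∩ B) ≠ 0}, inferInstance, fun i => mkFS ((s i).S ∩ B)
    ((s i).ms.inter hB) i.2 ((measure_mono Set.inter_subset_left).trans_lt
      (s i).net.lt_top).ne, rfl, fun i j hij => ?_, fun i => ?_⟩
  · exact (hd i j fun h => hij (Subtype.ext h)).mono Set.inter_subset_left Set.inter_subset_left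
  · exact Set.inter_subset_inter_left _ (hA i)

lemma Rich.split {A : Set α} (h : Rich μ A) {B : Set α} (hB : MeasurableSet B) :
    Rich μ (A ∩ B) ∨ Rich μ (A ∩ Bᶜ) := by
  classical
  by_contra hcon
  push Not at hcon
  obtain ⟨h1, h2⟩ := hcon
  unfold Rich at h1 h2
  push Not at h1 h2
  obtain ⟨n1, h1⟩ := h1
  obtain ⟨n2, h2⟩ := h2
  obtain ⟨ι, _, s, hn, hd, hA⟩ := h (n1 + n2)
  obtain ⟨κ1, _, t1, hc1, hd1, hA1⟩ := sub_rich hB hd hA
  obtain ⟨κ2, _, t2, hc2, hd2, hA2⟩ := sub_rich hB.compl hd hA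
  have b1 : Fintype.card κ1 < n1 := by
    by_contra hlt
    obtain ⟨i, hi⟩ := h1 κ1 inferInstance t1 (not_lt.1 hlt) hd1
    exact hi (hA1 i)
  have b2 : Fintype.card κ2 < n2 := by
    by_contra hlt
    obtain ⟨i, hi⟩ := h2 κ2 inferInstance t2 (not_lt.1 hlt) hd2
    exact hi (hA2 i)
  have b3 : Fintype.card ι ≤ Fintype.card κ1 + Fintype.card κ2 := by
    rw [hc1, hc2, Fintype.card_subtype, Fintype.card_subtype, ← Finset.card_univ]
    refine le_trans (Finset.card_le_card ?_) (Finset.card_union_le _ _)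
    intro i _
    rw [mem_union, mem_filter, mem_filter]
    by_contra hc
    push Not at hc
    have e1 : μ ((s i).S ∩ B) = 0 := hc.1 (mem_univ _)
    have e2 : μ ((s i).S ∩ Bᶜ) = 0 := hc.2 (mem_univ _)
    apply (s i).ne0
    have e3 : (s i).S = ((s i).S ∩ B) ∪ ((s i).S ∩ Bᶜ) := by
      rw [← Set.inter_union_distrib_left, Set.union_compl_self, Set.inter_univ]
    rw [e3]
    exact measure_union_null e1 e2
  omega

lemma Rich.step {A : Set α} (h : Rich μ A) :
    ∃ s : FS μ, s.S ⊆ A ∧ Rich μ (A ∩ s.Sᶜ) := by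
  classical
  obtain ⟨ι, _, s, hn, hd, hA⟩ := h 2
  obtain ⟨i, j, hij⟩ := Fintype.one_lt_card_iff.1 (lt_of_lt_of_le (by norm_num) hn)
  rcases h.split (s i).ms with h1 | h1
  · refine ⟨s j, hA j, h1.mono ?_⟩
    intro a ha
    exact ⟨ha.1, fun haj => Set.disjoint_left.1 (hd i j hij) ha.2 haj⟩
  · exact ⟨s i, hA i, h1⟩

lemma exists_disjSeq (h : Rich μ (Set.univ : Set α)) : ∃ D : ℕ → FS μ, DisjSeq D := by
  classical
  choose f hf1 hf2 using fun A : {A : Set α // Rich μ A} => A.2.step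
  let S : ℕ → {A : Set α // Rich μ A} := fun k =>
    Nat.rec ⟨Set.univ, h⟩ (fun _ A => ⟨A.1 ∩ (f A).Sᶜ, hf2 A⟩) k
  have hS : ∀ k, (S (k + 1)).1 = (S k).1 ∩ (f (S k)).Sᶜ := fun k => rfl
  have hmono : ∀ k l, k ≤ l → (S l).1 ⊆ (S k).1 := by
    intro k l hkl
    induction l, hkl using Nat.le_induction with
    | base => exact subset_rfl
    | succ l _ ih =>
      rw [hS]
      exact Set.inter_subset_left.trans ih
  have hlt : ∀ k l, k < l → Disjoint (f (S k)).S (f (S l)).S := by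
    intro k l hkl
    rw [Set.disjoint_left]
    intro a hk hl
    have h1 := hmono (k + 1) l hkl (hf1 (S l) hl)
    rw [hS] at h1
    exact h1.2 hk
  refine ⟨fun k => f (S k), fun i j hij => ?_⟩
  rcases lt_or_gt_of_ne hij with h1 | h1
  · exact hlt i j h1
  · exact (hlt j i h1).symm

lemma rich_of_infinite (hPt : P ≠ ∞) (hinf : ¬ FiniteDimensional ℂ (Lp ℂ P μ)) :
    Rich μ (Set.univ : Set α) := by
  classical
  intro n
  -- independent vectors
  have hI : Infinite (Module.Basis.ofVectorSpaceIndex ℂ (Lp ℂ P μ)) := by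
    by_contra hfin
    rw [not_infinite_iff_finite] at hfin
    exact hinf (Module.Finite.of_basis (Module.Basis.ofVectorSpace ℂ (Lp ℂ P μ)))
  set v : Fin n → Lp ℂ P μ := fun i => Module.Basis.ofVectorSpace ℂ (Lp ℂ P μ)
    (Infinite.natEmbedding _ (i : ℕ)) with hv
  have hvi : LinearIndependent ℂ v := by
    refine (Module.Basis.ofVectorSpace ℂ (Lp ℂ P μ)).linearIndependent.comp
      (fun i : Fin n => Infinite.natEmbedding _ (i : ℕ)) ?_
    intro i j hij
    exact Fin.ext ((Infinite.natEmbedding _).injective hij)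
  have hopen := isOpen_setOfPred_linearIndependent (𝕜 := ℂ) (E := Lp ℂ P μ) (ι := Fin n)
  obtain ⟨ε, hε, hball⟩ := Metric.isOpen_iff.1 hopen v hvi
  obtain ⟨N, s, hd, hs⟩ := exists_sets hPt (univ.image v) (show 0 < ε / 2 by positivity)
  refine ⟨Fin N, inferInstance, s, ?_, hd, fun i => Set.subset_univ _⟩
  set w : Fin n → Lp ℂ P μ := fun i =>
    vecB (fun i => eL P (s i)) (fun j => kL P (s j) (v i)) with hw
  have hwi : LinearIndependent ℂ w := by
    apply hball
    rw [Metric.mem_ball, dist_pi_lt_iff hε]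
    intro i
    rw [dist_eq_norm]
    exact (hs (v i) (mem_image_of_mem _ (mem_univ i))).trans_lt (by linarith)
  have h1 := linearIndependent_le_span' w hwi (Set.range fun i : Fin N => eL P (s i)) (by
    rintro _ ⟨i, rfl⟩
    rw [hw]
    unfold vecB
    refine Submodule.sum_mem _ fun j _ => Submodule.smul_mem _ _ (Submodule.subset_span ⟨j, rfl⟩))
  have h2 : Fintype.card (Set.range fun i : Fin N => eL P (s i)) ≤ Fintype.card (Fin N) :=
    Fintype.card_range_le _
  rw [Cardinal.mk_fin] at h1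
  have h3 : n ≤ Fintype.card (Set.range fun i : Fin N => eL P (s i)) := by exact_mod_cast h1
  exact h3.trans h2

/-- **Typical contractions of `L_p(μ)` and their commutants.** -/
theorem typ_Lp (hP1 : 1 < P) (hPt : P ≠ ∞) [SeparableSpace (Lp ℂ P μ)]
    (hinf : ¬ FiniteDimensional ℂ (Lp ℂ P μ)) (C : Set (Lp ℂ P μ →L[ℂ] Lp ℂ P μ))
    (hC : C = {T | ‖T‖ ≤ 1}) (t : TopologicalSpace C) (ht : t = sotStar C) :
    C.Nonempty ∧ @IsCompletelyMetrizableSpace C t ∧ @BaireSpace C t ∧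
      {T : C | DenselyHyperinvariant (T : Lp ℂ P μ →L[ℂ] Lp ℂ P μ)} ∈ @residual C t := by
  have hpq := Real.HolderConjugate.conjExponent (one_lt_toReal hP1 hPt)
  haveI := sep_dual (μ := μ) hPt hpq
  obtain ⟨D, hD⟩ := exists_disjSeq (rich_of_infinite hPt hinf)
  haveI : Nontrivial (Lp ℂ P μ) := by
    refine ⟨eL P (D 0), 0, fun h0 => ?_⟩
    have := kL_eL_self hPt (D 0)
    rw [h0, map_zero] at this
    exact zero_ne_one this
  have hcm : @IsCompletelyMetrizableSpace C (sotStar C) := by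
    subst hC
    refine cm_sotStar (fun T hT => hT) fun w T0 hw h => ?_
    refine ContinuousLinearMap.opNorm_le_bound _ zero_le_one fun x => ?_
    refine le_of_tendsto (h x).norm (Eventually.of_forall fun m => ?_)
    exact ((w m).le_opNorm x).trans (mul_le_mul_of_nonneg_right (hw m) (norm_nonneg _))
  subst ht
  refine ⟨⟨0, by rw [hC]; simp⟩, hcm, ?_, ?_⟩
  · exact @BaireSpace.of_completelyPseudoMetrizable _ (sotStar C)
      (@IsCompletelyMetrizableSpace.toIsCompletelyPseudoMetrizableSpace _ (sotStar C) hcm)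
  · letI : TopologicalSpace C := sotStar C
    haveI := fc_of_cm _ hcm
    have h1 := typ_hyp hpq (blockSys_L hP1 hPt hD) (ballS_sotStar C hC)
    exact Filter.mem_of_superset h1 fun T hT => hyp_of_goodH hT

end Pool.Agent.J4.H89
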