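import Pool.Agent.W338.RO.Abs

/-!
Fields of operators over a probability space: the dichotomy behind the moment criterion.
For an element `Q` of trace zero either almost every value has a hyperinvariant subspace, or
`(1/k) log |exp (k z Q)|^2` tends to zero in the 2-norm for every complex `z`.
-/

set_option autoImplicit false
open scoped ComplexConjugate InnerProductSpace Topology
open Filter MeasureTheory NormedSpace

namespace Pool.Agent.J4.H89.Mom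
open Pool.Agent.H712R5.BO Pool.Agent.H417B Pool.Agent.W611.RO Pool.Agent.W338.RO

/-- the standing assumptions: a tracial state, a field of representations, a zero-one law -/
structure Fld {Y : Type} [MeasurableSpace Y] (ν : Measure Y) {J : Type} {H : Type}
    [NormedAddCommGroup H] [InnerProductSpace ℂ H] [CompleteSpace H] {A : Type} [CStarAlgebra A]
    (τ : A →L[ℂ] ℂ) (e : Y → (A →⋆ₐ[ℂ] (H →L[ℂ] H))) (w : J → H) (v : H) : Prop where
  tr : TrSt τ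
  nv : ‖v‖ = 1
  tot : ∀ x : H, (∀ r, ⟪x, w r⟫_ℂ = 0) → x = 0
  meas : ∀ (a : A) (x : H), Measurable (fun y => ‖e y a x‖)
  htau : ∀ a : A, Integrable (fun y => ⟪v, e y a v⟫_ℂ) ν ∧ τ a = ∫ y, ⟪v, e y a v⟫_ℂ ∂ν
  hn2 : ∀ (a : A) (r : J), Integrable (fun y => ‖e y a (w r)‖ ^ 2) ν ∧
    ∫ y, ‖e y a (w r)‖ ^ 2 ∂ν ≤ (n2 τ a) ^ 2
  h01 : ∀ (B : ℕ → A) (R : ℝ), (∀ i, ‖B i‖ ≤ R) →
    (∀ᵐ y ∂ν, ¬ ∃ c : ℂ, ∀ x : H, Tendsto (fun i => e y (B i) x) atTop (𝓝 (c • x))) ∨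
    (∃ c : ℂ, ∀ᵐ y ∂ν, ∀ x : H, Tendsto (fun i => e y (B i) x) atTop (𝓝 (c • x)))

theorem hB2 : P_B2 := t_B2 t_B2a t_B1
theorem hB3 : P_B3 := t_B3 t_B1 hB2 t_B2c
theorem hB4u : P_B4u := t_B4u t_B1 t_B4v
theorem hB4 : P_B4 := t_B4 t_B1 hB3 hB4u
theorem hB5 : P_B5 := t_B5 t_B1 hB4 hB4u
theorem hB6 : P_B6 := t_B6 t_B1 hB4u hB5
theorem hB8 : P_B8 := t_B8 hB6 (t_B7 t_B1)
theorem hB9 : P_B9 := t_B9 t_B1 hB4u hB8
theorem hB12 : P_B12 := t_B12 t_B1 t_B10 (t_B11 hB4 hB9)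
theorem hB13 : P_B13 := t_B13 hB2
theorem hD2 : P_D2 := t_D2 hB2 t_D1
theorem hD7 : P_D7 := t_D7 hB4u t_D1 (t_D3 hD2) (t_D4 t_B1) (t_D6 t_D5)
theorem hC12 : P_C12H := t_C12H t_B4v t_C10 t_C11

/-- `(1/k) log |exp (k z Q)|^2` -/
noncomputable def BB {A : Type} [CStarAlgebra A] (Q : A) (z : ℂ) (k : ℕ) : A :=
  (1 / (k : ℝ)) • Lg (ex (k : ℂ) (z • Q))

theorem BB_norm {A : Type} [CStarAlgebra A] (Q : A) (z : ℂ) (k : ℕ) (hk : 1 ≤ k) :
    ‖BB Q z k‖ ≤ 2 * (‖z‖ * ‖Q‖) := by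
  have hk0 : (0 : ℝ) < k := by exact_mod_cast hk
  have h1 := (t_B4v A).2.2.2.2 ((k : ℂ) • (z • Q))
  rw [norm_smul, norm_smul, Complex.norm_natCast] at h1
  show ‖(1 / (k : ℝ)) • Lg (ex (k : ℂ) (z • Q))‖ ≤ 2 * (‖z‖ * ‖Q‖)
  rw [norm_smul, Real.norm_eq_abs, abs_of_pos (by positivity)]
  calc 1 / (k : ℝ) * ‖Lg (ex (k : ℂ) (z • Q))‖ ≤ 1 / (k : ℝ) * (2 * (k * (‖z‖ * ‖Q‖))) := by
        gcongr
        exact h1
    _ = 2 * (‖z‖ * ‖Q‖) := by field_simp

theorem BB_sa {A : Type} [CStarAlgebra A] (Q : A) (z : ℂ) (k : ℕ) : IsSelfAdjoint (BB Q z k) :=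
  IsSelfAdjoint.smul (IsSelfAdjoint.all _) ((t_B4v A).1 _)

theorem BB_tr {A : Type} [CStarAlgebra A] (τ : A →L[ℂ] ℂ) (hτ : TrSt τ) (Q : A) (hQ : τ Q = 0)
    (z : ℂ) (k : ℕ) : τ (BB Q z k) = 0 := by
  apply Complex.ext
  · have h1 : BB Q z k = ((1 / (k : ℝ) : ℝ) : ℂ) • Lg (ex (k : ℂ) (z • Q)) := by
      rw [BB, Complex.coe_smul]
    have h2 := τ.map_smul ((1 / (k : ℝ) : ℝ) : ℂ) (Lg (ex (k : ℂ) (z • Q)))
    have h3 := hB13 A τ hτ ((k : ℂ) • (z • Q))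
    have h4 : τ ((k : ℂ) • (z • Q)) = 0 := by
      have h5 := τ.map_smul (k : ℂ) (z • Q)
      have h6 := τ.map_smul z Q
      rw [h5, h6, hQ, smul_zero, smul_zero]
    rw [h4, Complex.zero_re, mul_zero] at h3
    have h5 : (τ (Lg (ex (k : ℂ) (z • Q)))).re = 0 := h3
    rw [h1, h2, smul_eq_mul, Complex.re_ofReal_mul, h5, mul_zero]
    rfl
  · have h1 := hτ.herm (BB Q z k)
    rw [(BB_sa Q z k).star_eq] at h1
    have h2 := congrArg Complex.im h1
    rw [Complex.conj_im] at h2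
    show (τ (BB Q z k)).im = 0
    linarith

section
variable {Y : Type} [MeasurableSpace Y] {ν : Measure Y} [IsProbabilityMeasure ν]
  {J : Type} [Countable J] {H : Type} [NormedAddCommGroup H] [InnerProductSpace ℂ H]
  [CompleteSpace H] {A : Type} [CStarAlgebra A] {τ : A →L[ℂ] ℂ}
  {e : Y → (A →⋆ₐ[ℂ] (H →L[ℂ] H))} {w : J → H} {v : H}

theorem BB_ev (Q : A) (z : ℂ) (k : ℕ) (y : Y) :
    e y (BB Q z k) = (1 / (k : ℝ)) • Lg (ex (k : ℂ) (z • e y Q)) := by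
  have h1 : BB Q z k = ((1 / (k : ℝ) : ℝ) : ℂ) • Lg (ex (k : ℂ) (z • Q)) := by
    rw [BB, Complex.coe_smul]
  rw [h1, map_smul, e_Lg, map_smul, Complex.coe_smul]

/-- the dichotomy for one value of `z` -/
theorem dich1 (F : Fld ν τ e w v) (Q : A) (hQ : τ Q = 0) (z : ℂ) :
    (∀ᵐ y ∂ν, HasHyp (e y Q)) ∨ Tendsto (fun k => n2 τ (BB Q z k)) atTop (𝓝 0) := by
  obtain ⟨hτ, hv, hw, hmeas, htau, hn2, h01⟩ := F
  have hB1 := t_B1 A τ hτ
  have hC : ∀ i : ℕ, ∃ K : ℕ, ∀ k ≥ K, ∀ m ≥ K, n2 τ (BB Q z k - BB Q z m) < (1 / 2 : ℝ) ^ i := by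
    intro i
    obtain ⟨K, -, hK⟩ := hB12 A τ hτ (z • Q) ((1 / 2 : ℝ) ^ i) (by positivity)
    exact ⟨K, hK⟩
  choose K hK using hC
  obtain ⟨φ, hφ⟩ : ∃ φ : ℕ → ℕ, φ = fun n => n + 1 + ∑ i ∈ Finset.range (n + 1), K i := ⟨_, rfl⟩
  have hφm : StrictMono φ := by
    refine strictMono_nat_of_lt_succ fun n => ?_
    rw [hφ]
    show n + 1 + ∑ i ∈ Finset.range (n + 1), K i < n + 1 + 1 + ∑ i ∈ Finset.range (n + 1 + 1), K i
    rw [Finset.sum_range_succ K (n + 1)]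
    omega
  have hφ1 : ∀ i, 1 ≤ φ i := by
    intro i
    rw [hφ]
    show 1 ≤ i + 1 + _
    omega
  have hφK : ∀ i, K i ≤ φ i := by
    intro i
    rw [hφ]
    show K i ≤ i + 1 + ∑ i ∈ Finset.range (i + 1), K i
    have : K i ≤ ∑ i ∈ Finset.range (i + 1), K i :=
      Finset.single_le_sum (fun _ _ => Nat.zero_le _) (Finset.self_mem_range_succ i)
    omega
  have hae : ∀ᵐ y ∂ν, ∀ (r : J),
      ∃ x : H, Tendsto (fun i => e y (BB Q z (φ i)) (w r)) atTop (𝓝 x) := by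
    rw [ae_all_iff]
    intro r
    have h1 := ae_sum ν (fun i y => ‖e y (BB Q z (φ (i + 1)) - BB Q z (φ i)) (w r)‖)
      (fun _ _ => norm_nonneg _) (fun i => (hn2 _ r).1) (fun i => by
        refine (hn2 _ r).2.trans ?_
        have h2 := hK i (φ (i + 1)) ((hφK i).trans (hφm (Nat.lt_succ_self i)).le) (φ i) (hφK i)
        have h3 : 0 ≤ n2 τ (BB Q z (φ (i + 1)) - BB Q z (φ i)) := hB1.2.2.2.2.2.2.2.2.1 _
        calc n2 τ (BB Q z (φ (i + 1)) - BB Q z (φ i)) ^ 2 ≤ ((1 / 2 : ℝ) ^ i) ^ 2 := by gcongr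
          _ = (1 / 4) ^ i := by rw [← pow_mul, mul_comm, pow_mul]; norm_num)
    filter_upwards [h1] with y hy
    have h2 : Summable fun i => e y (BB Q z (φ (i + 1)) - BB Q z (φ i)) (w r) := Summable.of_norm hy
    obtain ⟨s, hs⟩ := h2
    have h3 := hs.tendsto_sum_nat
    refine ⟨s + e y (BB Q z (φ 0)) (w r), ?_⟩
    have h4 : ∀ n, ∑ i ∈ Finset.range n, e y (BB Q z (φ (i + 1)) - BB Q z (φ i)) (w r)
        = e y (BB Q z (φ n)) (w r) - e y (BB Q z (φ 0)) (w r) := by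
      intro n
      rw [← Finset.sum_range_sub (fun i => e y (BB Q z (φ i)) (w r))]
      refine Finset.sum_congr rfl fun i _ => ?_
      rw [map_sub]
      rfl
    refine (h3.add_const (e y (BB Q z (φ 0)) (w r))).congr fun n => ?_
    rw [h4, sub_add_cancel]
  have hBn : ∀ i, ‖BB Q z (φ i)‖ ≤ 2 * (‖z‖ * ‖Q‖) := fun i => BB_norm Q z _ (hφ1 i)
  have hen : ∀ y i, ‖e y (BB Q z (φ i))‖ ≤ 2 * (‖z‖ * ‖Q‖) := fun y i =>
    (NonUnitalStarAlgHom.norm_apply_le (e y) _).trans (hBn i)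
  rcases h01 (fun i => BB Q z (φ i)) (2 * (‖z‖ * ‖Q‖)) hBn with hj | ⟨c, hc⟩
  · left
    filter_upwards [hae, hj] with y hy hyj
    obtain ⟨X, hX⟩ := strong_lim w hw (fun i => e y (BB Q z (φ i))) _ (hen y) hy
    have hs : ¬ ∃ c : ℂ, X = c • 1 := by
      rintro ⟨c, hc⟩
      apply hyj
      refine ⟨c, fun x => ?_⟩
      have := hX x
      rw [hc] at this
      simpa using this
    obtain ⟨V, hVc, hVb, hVt, hVi⟩ := hC12 H (z • e y Q) φ hφm hφ1 X
      (fun x => by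
        have h1 := hX x
        simp_rw [BB_ev] at h1
        exact h1) hs
    refine ⟨V, hVc, hVb, hVt, fun R hR x hx => hVi R ?_ x hx⟩
    rw [mul_smul_comm, smul_mul_assoc, hR]
  · right
    have hvv : ⟪v, v⟫_ℂ = 1 := by
      rw [inner_self_eq_norm_sq_to_K, hv]
      simp
    have hc0 : c = 0 := by
      have h1 : Tendsto (fun i => ∫ y, ⟪v, e y (BB Q z (φ i)) v⟫_ℂ ∂ν) atTop
          (𝓝 (∫ _y, c ∂ν)) := by
        refine tendsto_integral_of_dominated_convergence (fun _ => 2 * (‖z‖ * ‖Q‖))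
          (fun i => (htau _).1.aestronglyMeasurable) (integrable_const _)
          (fun i => Eventually.of_forall fun y => ?_) ?_
        · calc ‖⟪v, e y (BB Q z (φ i)) v⟫_ℂ‖ ≤ ‖v‖ * ‖e y (BB Q z (φ i)) v‖ :=
                norm_inner_le_norm _ _
            _ ≤ ‖v‖ * ((2 * (‖z‖ * ‖Q‖)) * ‖v‖) := by
                gcongr
                exact ((e y (BB Q z (φ i))).le_opNorm _).trans (by
                  gcongr
                  exact hen y i)
            _ = 2 * (‖z‖ * ‖Q‖) := by rw [hv, one_mul, mul_one]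
        · filter_upwards [hc] with y hy
          have h2 : Tendsto (fun i => ⟪v, e y (BB Q z (φ i)) v⟫_ℂ) atTop (𝓝 ⟪v, c • v⟫_ℂ) :=
            (tendsto_const_nhds).inner (hy v)
          rwa [inner_smul_right, hvv, mul_one] at h2
      have h2 : ∀ i, ∫ y, ⟪v, e y (BB Q z (φ i)) v⟫_ℂ ∂ν = 0 := fun i => by
        rw [← (htau _).2, BB_tr τ hτ Q hQ]
      simp only [h2] at h1
      have h3 := tendsto_nhds_unique h1 tendsto_const_nhds
      rw [integral_const] at h3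
      simpa using h3
    have hsq : ∀ a : A, n2 τ a ^ 2 = ∫ y, ‖e y a v‖ ^ 2 ∂ν := by
      intro a
      rw [hB1.2.2.2.2.2.2.2.2.2.2, (htau _).2]
      have h1 : ∀ y, ⟪v, e y (star a * a) v⟫_ℂ = ((‖e y a v‖ ^ 2 : ℝ) : ℂ) := by
        intro y
        rw [map_mul, map_star]
        show ⟪v, star (e y a) (e y a v)⟫_ℂ = _
        rw [ContinuousLinearMap.star_eq_adjoint, ContinuousLinearMap.adjoint_inner_right,
          inner_self_eq_norm_sq_to_K]
        push_cast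
        rfl
      simp_rw [h1]
      rw [integral_complex_ofReal, Complex.ofReal_re]
    have htend : Tendsto (fun i => n2 τ (BB Q z (φ i))) atTop (𝓝 0) := by
      have h1 : Tendsto (fun i => ∫ y, ‖e y (BB Q z (φ i)) v‖ ^ 2 ∂ν) atTop
          (𝓝 (∫ _y : Y, (0 : ℝ) ∂ν)) := by
        refine tendsto_integral_of_dominated_convergence (fun _ => (2 * (‖z‖ * ‖Q‖)) ^ 2)
          (fun i => ((hmeas _ v).pow_const 2).aestronglyMeasurable) (integrable_const _)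
          (fun i => Eventually.of_forall fun y => ?_) ?_
        · rw [Real.norm_eq_abs, abs_of_nonneg (by positivity)]
          have h2 : ‖e y (BB Q z (φ i)) v‖ ≤ 2 * (‖z‖ * ‖Q‖) := by
            have h3 := (e y (BB Q z (φ i))).le_opNorm v
            rw [hv, mul_one] at h3
            exact h3.trans (hen y i)
          exact pow_le_pow_left₀ (norm_nonneg _) h2 2
        · filter_upwards [hc] with y hy
          have h8 := ((hy v).norm).pow 2
          rw [hc0, zero_smul, norm_zero] at h8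
          simpa using h8
      rw [integral_zero] at h1
      simp only [← hsq] at h1
      have h2 := h1.sqrt
      rw [Real.sqrt_zero] at h2
      refine h2.congr fun i => ?_
      exact Real.sqrt_sq (hB1.2.2.2.2.2.2.2.2.1 _)
    -- from the subsequence to the full sequence
    rw [Metric.tendsto_atTop]
    intro ε hε
    obtain ⟨K', -, hK'⟩ := hB12 A τ hτ (z • Q) (ε / 2) (by positivity)
    refine ⟨K', fun k hk => ?_⟩
    have h1 := htend.eventually (gt_mem_nhds (show (0 : ℝ) < ε / 2 by positivity))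
    obtain ⟨i, hi1, hi2⟩ := (h1.and (hφm.tendsto_atTop.eventually_ge_atTop K')).exists
    have h2 := hK' k hk (φ i) hi2
    have h3 := hB1.1 (BB Q z k - BB Q z (φ i)) (BB Q z (φ i))
    rw [sub_add_cancel] at h3
    have h4 : 0 ≤ n2 τ (BB Q z k) := hB1.2.2.2.2.2.2.2.2.1 _
    rw [Real.dist_eq, sub_zero, abs_of_nonneg h4]
    have h5 : n2 τ (BB Q z k - BB Q z (φ i)) < ε / 2 := h2
    linarith

end

end Pool.Agent.J4.H89.Mom
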