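import Pool.Agent.J4.H89.Mom1

/-!
Moment criterion, algebraic part: an element all of whose exponential limits vanish has
`τ log (1 + Λ^(2k) |Q^k|^2) = o(k)`, and two commuting elements that differ by a nonzero scalar
cannot both have this property.
-/

set_option autoImplicit false
open scoped ComplexConjugate InnerProductSpace Topology
open Filter MeasureTheory NormedSpace

namespace Pool.Agent.J4.H89.Mom
open Pool.Agent.H712R5.BO Pool.Agent.H417B Pool.Agent.W611.RO Pool.Agent.W338.RO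

variable {A : Type} [CStarAlgebra A] {τ : A →L[ℂ] ℂ}

/-- all limits of `(1/k) log |exp (k z Q)|^2` vanish -/
def Nul (τ : A →L[ℂ] ℂ) (Q : A) : Prop := ∀ z : ℂ, Tendsto (fun k => n2 τ (BB Q z k)) atTop (𝓝 0)

theorem ck_le_one (k : ℕ) (hk : 1 ≤ k) : ck k ≤ 1 := by
  have hk0 : (0 : ℝ) < k := by exact_mod_cast hk
  unfold ck
  rw [div_le_one (by positivity)]
  exact_mod_cast Nat.factorial_le_pow k

theorem NN_eq (hτ : TrSt τ) (Q : A) (Λ : ℝ) (M j k : ℕ) (hk : 1 ≤ k) :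
    NN τ (ex (k * rt M j) ((Λ : ℂ) • Q)) = k * n2 τ (BB Q (rt M j * Λ) k) := by
  have hk0 : (0 : ℝ) < k := by exact_mod_cast hk
  have hB1 := t_B1 A τ hτ
  have h1 : ex (k * rt M j) ((Λ : ℂ) • Q) = ex (k : ℂ) ((rt M j * Λ) • Q) := by
    unfold ex
    rw [smul_smul, smul_smul, mul_assoc]
  have h2 : n2 τ (BB Q (rt M j * Λ) k)
      = |1 / (k : ℝ)| * n2 τ (Lg (ex (k : ℂ) ((rt M j * Λ) • Q))) := hB1.2.2.2.1 _ _
  rw [h1, h2, abs_of_pos (by positivity)]
  unfold NN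
  field_simp

theorem nul_log (hτ : TrSt τ) (Q : A) (h : Nul τ Q) (Λ : ℝ) (hΛ : 0 < Λ) (ε : ℝ) (hε : 0 < ε) :
    ∃ K : ℕ, ∀ k ≥ K,
      (τ (CFC.log (1 + (Λ ^ (2 * k)) • (star (Q ^ k) * Q ^ k)))).re ≤ ε * k := by
  let := CStarAlgebra.spectralOrder A
  have := CStarAlgebra.spectralOrderedRing A
  obtain ⟨M, hM⟩ := exists_nat_ge (12 * Real.pi * ‖(Λ : ℂ) • Q‖ / ε + 1)
  have hpi := Real.pi_pos
  have hM0 : (1 : ℝ) ≤ M := by
    have : 0 ≤ 12 * Real.pi * ‖(Λ : ℂ) • Q‖ / ε := by positivity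
    linarith
  have hM1 : 1 ≤ M := by exact_mod_cast hM0
  have hM2 : 4 * Real.pi * ‖(Λ : ℂ) • Q‖ / M ≤ ε / 3 := by
    rw [div_le_div_iff₀ (by linarith) (by norm_num)]
    have h1 : 12 * Real.pi * ‖(Λ : ℂ) • Q‖ / ε ≤ M := by linarith
    rw [div_le_iff₀ hε] at h1
    linarith
  have hlim : Tendsto (fun k : ℕ => ∑ j : Fin M, n2 τ (BB Q (rt M j * Λ) k)) atTop (𝓝 0) := by
    have h1 : Tendsto (fun k : ℕ => ∑ j : Fin M, n2 τ (BB Q (rt M j * Λ) k)) atTop
        (𝓝 (∑ _j : Fin M, (0 : ℝ))) := tendsto_finsetSum _ fun j _ => h _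
    simpa using h1
  have hev := hlim.eventually (gt_mem_nhds (show (0 : ℝ) < ε / 3 by positivity))
  obtain ⟨K1, hK1⟩ := eventually_atTop.1 hev
  obtain ⟨K2, hK2⟩ := exists_nat_ge (3 * (M * Real.log 2) / ε)
  refine ⟨K1 + K2 + 1, fun k hk => ?_⟩
  have hk1 : 1 ≤ k := by omega
  have hk0 : (0 : ℝ) < k := by exact_mod_cast hk1
  have hck : 0 < ck k := D7_ck_pos hk1
  have hck1 := ck_le_one k hk1
  have h7 := hD7 A τ hτ ((Λ : ℂ) • Q) k M hk1 hM1
  have e1 : ∑ j : Fin M, NN τ (ex (k * rt M j) ((Λ : ℂ) • Q))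
      = k * ∑ j : Fin M, n2 τ (BB Q (rt M j * Λ) k) := by
    rw [Finset.mul_sum]
    exact Finset.sum_congr rfl fun j _ => NN_eq hτ Q Λ M j k hk1
  rw [e1] at h7
  have e2 : star (((Λ : ℂ) • Q) ^ k) * ((Λ : ℂ) • Q) ^ k
      = (Λ ^ (2 * k)) • (star (Q ^ k) * Q ^ k) := by
    rw [smul_pow, star_smul, smul_mul_smul_comm, ← Complex.coe_smul]
    congr 1
    rw [star_pow, Complex.star_def, Complex.conj_ofReal]
    push_cast
    ring
  rw [e2] at h7
  set a : A := (Λ ^ (2 * k)) • (star (Q ^ k) * Q ^ k) with ha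
  have ha0 : 0 ≤ a := smul_nonneg (by positivity) (star_mul_self_nonneg _)
  obtain ⟨d1, d2⟩ := t_D1 A τ hτ
  have hpos : IsStrictlyPositive (algebraMap ℝ A ((ck k) ^ 2) + a) :=
    IsStrictlyPositive.add_nonneg (isStrictlyPositive_algebraMap (by positivity)) ha0
  have hpos1 : IsStrictlyPositive (1 + a) :=
    IsStrictlyPositive.add_nonneg isStrictlyPositive_one ha0
  have hle : 1 + a ≤ (((ck k) ^ 2)⁻¹) • (algebraMap ℝ A ((ck k) ^ 2) + a) := by
    rw [smul_add, Algebra.algebraMap_eq_smul_one, smul_smul, inv_mul_cancel₀ (by positivity),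
      one_smul]
    refine add_le_add le_rfl ?_
    have h1 : (1 : ℝ) ≤ ((ck k) ^ 2)⁻¹ := by
      rw [one_le_inv₀ (by positivity)]
      exact pow_le_one₀ hck.le hck1
    calc a = (1 : ℝ) • a := (one_smul _ _).symm
      _ ≤ (((ck k) ^ 2)⁻¹) • a := smul_le_smul_of_nonneg_right h1 ha0
  have h8 := d2 _ _ hpos1 hle
  rw [CFC.log_smul' _ (by positivity) hpos, map_add, Complex.add_re, D7_algMap τ hτ,
    Real.log_inv, Real.log_pow] at h8
  have h9 : (M : ℝ) * Real.log 2 ≤ ε / 3 * k := by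
    have h10 : (K2 : ℝ) ≤ k := by exact_mod_cast (by omega : K2 ≤ k)
    have h11 : 3 * (M * Real.log 2) / ε ≤ k := hK2.trans h10
    rw [div_le_iff₀ hε] at h11
    linarith
  have h10 : 4 * Real.pi * k * ‖(Λ : ℂ) • Q‖ / M ≤ ε / 3 * k := by
    calc 4 * Real.pi * k * ‖(Λ : ℂ) • Q‖ / M = (4 * Real.pi * ‖(Λ : ℂ) • Q‖ / M) * k := by ring
      _ ≤ ε / 3 * k := by gcongr
  have h11 : (k : ℝ) * ∑ j : Fin M, n2 τ (BB Q (rt M j * Λ) k) ≤ ε / 3 * k := by
    rw [mul_comm]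
    have := hK1 k (by omega)
    gcongr
  rw [Nat.cast_ofNat] at h8
  linarith

/-- binomial splitting with norm control -/
theorem split_pow (P X : A) (hc : Commute P X) (ρ : ℝ) (h1 : 1 ≤ ρ) (hP : ‖P‖ ≤ ρ) (hX : ‖X‖ ≤ ρ)
    (k : ℕ) : ∃ U V : A, (P - X) ^ (2 * k) = U * P ^ k + V * X ^ k ∧
      ‖U‖ ≤ (4 * ρ) ^ k ∧ ‖V‖ ≤ (4 * ρ) ^ k := by
  have hone : ‖(1 : A)‖ ≤ 1 := by
    rcases subsingleton_or_nontrivial A with hs | hs
    · rw [Subsingleton.elim (1 : A) 0, norm_zero]; exact zero_le_one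
    · rw [CStarRing.norm_one]
  have hpw : ∀ (Z : A) (n : ℕ), ‖Z‖ ≤ ρ → ‖Z ^ n‖ ≤ ρ ^ n := by
    intro Z n hZ
    induction n with
    | zero => simpa using hone
    | succ n ih =>
      rw [pow_succ, pow_succ]
      exact (norm_mul_le _ _).trans (mul_le_mul ih hZ (norm_nonneg _) (by positivity))
  have hN : ‖-X‖ ≤ ρ := by rw [norm_neg]; exact hX
  have hc' : Commute P (-X) := hc.neg_right
  have hadd := hc'.add_pow (2 * k)
  rw [← sub_eq_add_neg] at hadd
  have hterm : ∀ (i n : ℕ) (c : ℕ), i + n ≤ k →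
      ‖P ^ i * (-X) ^ n * (c : A)‖ ≤ ρ ^ k * c := by
    intro i n c hin
    have h2 : ‖(c : A)‖ ≤ c := by
      have h3 : (c : A) = (c : ℂ) • (1 : A) := by rw [Nat.cast_smul_eq_nsmul, nsmul_one]
      rw [h3, norm_smul, Complex.norm_natCast]
      exact mul_le_of_le_one_right (Nat.cast_nonneg _) hone
    calc ‖P ^ i * (-X) ^ n * (c : A)‖ ≤ ‖P ^ i * (-X) ^ n‖ * ‖(c : A)‖ := norm_mul_le _ _
      _ ≤ (‖P ^ i‖ * ‖(-X) ^ n‖) * c := by
          refine mul_le_mul (norm_mul_le _ _) h2 (norm_nonneg _) (by positivity)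
      _ ≤ (ρ ^ i * ρ ^ n) * c := by
          refine mul_le_mul_of_nonneg_right ?_ (Nat.cast_nonneg _)
          exact mul_le_mul (hpw P i hP) (hpw (-X) n hN) (norm_nonneg _) (by positivity)
      _ ≤ ρ ^ k * c := by
          refine mul_le_mul_of_nonneg_right ?_ (Nat.cast_nonneg _)
          rw [← pow_add]
          exact pow_le_pow_right₀ h1 hin
  have hsumc : ∑ i ∈ Finset.range (2 * k + 1), ((2 * k).choose i : ℝ) = 4 ^ k := by
    have h4 := Nat.sum_range_choose (2 * k)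
    have h5 : (4 : ℝ) ^ k = ((2 ^ (2 * k) : ℕ) : ℝ) := by
      push_cast
      rw [pow_mul]
      norm_num
    rw [h5, ← h4]
    push_cast
    rfl
  refine ⟨∑ i ∈ (Finset.range (2 * k + 1)).filter (fun i => k ≤ i),
      P ^ (i - k) * (-X) ^ (2 * k - i) * ((2 * k).choose i : A),
    ∑ i ∈ (Finset.range (2 * k + 1)).filter (fun i => ¬ k ≤ i),
      ((-1 : ℂ) ^ k) • (P ^ i * (-X) ^ (k - i) * ((2 * k).choose i : A)), ?_, ?_, ?_⟩
  · rw [hadd, ← Finset.sum_filter_add_sum_filter_not (Finset.range (2 * k + 1)) (fun i => k ≤ i),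
      Finset.sum_mul, Finset.sum_mul]
    congr 1
    · refine Finset.sum_congr rfl fun i hi => ?_
      rw [Finset.mem_filter, Finset.mem_range] at hi
      have e1 : P ^ i = P ^ (i - k) * P ^ k := by rw [← pow_add]; congr 1; omega
      have e2 : P ^ k * (-X) ^ (2 * k - i) = (-X) ^ (2 * k - i) * P ^ k :=
        (hc'.pow_pow k (2 * k - i)).eq
      have e3 : P ^ k * ((2 * k).choose i : A) = ((2 * k).choose i : A) * P ^ k :=
        (Nat.cast_commute ((2 * k).choose i) (P ^ k)).symm.eq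
      calc P ^ i * (-X) ^ (2 * k - i) * ((2 * k).choose i : A)
          = P ^ (i - k) * (P ^ k * (-X) ^ (2 * k - i)) * ((2 * k).choose i : A) := by
            rw [e1, mul_assoc (P ^ (i - k))]
        _ = P ^ (i - k) * (-X) ^ (2 * k - i) * (P ^ k * ((2 * k).choose i : A)) := by
            rw [e2]
            simp only [mul_assoc]
        _ = _ := by
            rw [e3]
            simp only [mul_assoc]
    · refine Finset.sum_congr rfl fun i hi => ?_
      rw [Finset.mem_filter, Finset.mem_range] at hi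
      have e1 : (-X) ^ (2 * k - i) = (-X) ^ (k - i) * (-X) ^ k := by
        rw [← pow_add]; congr 1; omega
      have e2 : (-X) ^ k = ((-1 : ℂ) ^ k) • X ^ k := by
        rw [← smul_pow]
        congr 1
        simp
      have e3 : X ^ k * ((2 * k).choose i : A) = ((2 * k).choose i : A) * X ^ k :=
        (Nat.cast_commute ((2 * k).choose i) (X ^ k)).symm.eq
      rw [e1, e2, smul_mul_assoc, mul_smul_comm, mul_smul_comm, smul_mul_assoc]
      congr 1
      calc P ^ i * ((-X) ^ (k - i) * X ^ k) * ((2 * k).choose i : A)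
          = P ^ i * (-X) ^ (k - i) * (X ^ k * ((2 * k).choose i : A)) := by
            simp only [mul_assoc]
        _ = _ := by
            rw [e3]
            simp only [mul_assoc]
  · refine (norm_sum_le _ _).trans ?_
    calc ∑ i ∈ (Finset.range (2 * k + 1)).filter (fun i => k ≤ i),
          ‖P ^ (i - k) * (-X) ^ (2 * k - i) * ((2 * k).choose i : A)‖
        ≤ ∑ i ∈ (Finset.range (2 * k + 1)).filter (fun i => k ≤ i),
          ρ ^ k * ((2 * k).choose i : ℝ) := by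
          refine Finset.sum_le_sum fun i hi => ?_
          rw [Finset.mem_filter, Finset.mem_range] at hi
          exact hterm _ _ _ (by omega)
      _ ≤ ∑ i ∈ Finset.range (2 * k + 1), ρ ^ k * ((2 * k).choose i : ℝ) :=
          Finset.sum_le_sum_of_subset_of_nonneg (Finset.filter_subset _ _)
            fun i _ _ => by positivity
      _ = (4 * ρ) ^ k := by rw [← Finset.mul_sum, hsumc, mul_pow]; ring
  · refine (norm_sum_le _ _).trans ?_
    calc ∑ i ∈ (Finset.range (2 * k + 1)).filter (fun i => ¬ k ≤ i),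
          ‖((-1 : ℂ) ^ k) • (P ^ i * (-X) ^ (k - i) * ((2 * k).choose i : A))‖
        ≤ ∑ i ∈ (Finset.range (2 * k + 1)).filter (fun i => ¬ k ≤ i),
          ρ ^ k * ((2 * k).choose i : ℝ) := by
          refine Finset.sum_le_sum fun i hi => ?_
          rw [Finset.mem_filter, Finset.mem_range] at hi
          rw [norm_smul, norm_pow, norm_neg, norm_one, one_pow, one_mul]
          exact hterm _ _ _ (by omega)
      _ ≤ ∑ i ∈ Finset.range (2 * k + 1), ρ ^ k * ((2 * k).choose i : ℝ) :=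
          Finset.sum_le_sum_of_subset_of_nonneg (Finset.filter_subset _ _)
            fun i _ _ => by positivity
      _ = (4 * ρ) ^ k := by rw [← Finset.mul_sum, hsumc, mul_pow]; ring

theorem star_mul_le [PartialOrder A] [StarOrderedRing A] (U Z : A) (C : ℝ) (hU : ‖U‖ ≤ C) :
    star (U * Z) * (U * Z) ≤ (C ^ 2) • (star Z * Z) := by
  have h1 : star U * U ≤ algebraMap ℝ A (C ^ 2) := by
    have h2 : star U * U ≤ algebraMap ℝ A ‖star U * U‖ :=
      (IsSelfAdjoint.star_mul_self U).le_algebraMap_norm_self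
    refine h2.trans (algebraMap_mono A ?_)
    rw [CStarRing.norm_star_mul_self]
    nlinarith [norm_nonneg U]
  have h3 := star_left_conjugate_le_conjugate h1 Z
  calc star (U * Z) * (U * Z) = star Z * (star U * U) * Z := by
        rw [star_mul]
        simp only [mul_assoc]
    _ ≤ star Z * algebraMap ℝ A (C ^ 2) * Z := h3
    _ = (C ^ 2) • (star Z * Z) := by
        rw [Algebra.algebraMap_eq_smul_one, mul_smul_comm, mul_one, smul_mul_assoc]

theorem add_sq_le [PartialOrder A] [StarOrderedRing A] (a b : A) :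
    star (a + b) * (a + b) ≤ (2 : ℝ) • (star a * a) + (2 : ℝ) • (star b * b) := by
  rw [← sub_nonneg]
  have h : (2 : ℝ) • (star a * a) + (2 : ℝ) • (star b * b) - star (a + b) * (a + b)
      = star (a - b) * (a - b) := by
    rw [star_add, star_sub, two_smul, two_smul]
    noncomm_ring
  rw [h]
  exact star_mul_self_nonneg _

theorem no_nul (hτ : TrSt τ) (S : A) (m : ℕ) (hm : 1 ≤ m) (β : ℂ) (hβ : β ≠ 0) (h1 : Nul τ S)
    (h2 : Nul τ (S ^ m - β • (1 : A))) : False := by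
  let := CStarAlgebra.spectralOrder A
  have := CStarAlgebra.spectralOrderedRing A
  set X : A := S ^ m - β • (1 : A) with hX
  have hm0 : (0 : ℝ) < m := by exact_mod_cast hm
  set ρ : ℝ := ‖S ^ m‖ + ‖X‖ + 1 with hρ
  have hρ1 : 1 ≤ ρ := by
    have := norm_nonneg (S ^ m)
    have := norm_nonneg X
    linarith
  have hρP : ‖S ^ m‖ ≤ ρ := by
    have := norm_nonneg X
    linarith
  have hρX : ‖X‖ ≤ ρ := by
    have := norm_nonneg (S ^ m)
    linarith
  have hb : 0 < ‖β‖ := norm_pos_iff.2 hβ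
  have hcomm : Commute (S ^ m) X := by
    rw [hX]
    exact (Commute.refl _).sub_right ((Commute.one_right _).smul_right β)
  set Λ : ℝ := Real.exp 1 * (4 * ρ / ‖β‖ ^ 2) with hΛ
  have hΛ0 : 0 < Λ := by positivity
  set Λ' : ℝ := Λ ^ ((m : ℝ)⁻¹) with hΛ'
  have hΛ'0 : 0 < Λ' := Real.rpow_pos_of_pos hΛ0 _
  have hΛ'm : Λ' ^ m = Λ := Real.rpow_inv_natCast_pow hΛ0.le (by omega)
  obtain ⟨K1, hK1⟩ := nul_log hτ S h1 Λ' hΛ'0 (1 / (2 * m)) (by positivity)
  obtain ⟨K2, hK2⟩ := nul_log hτ X h2 Λ hΛ0 (1 / 2) (by positivity)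
  set k : ℕ := K1 + K2 + 1 with hk
  have hk1 : 1 ≤ k := by omega
  have hk0 : (1 : ℝ) ≤ k := by exact_mod_cast hk1
  have f1 := hK1 (m * k) (by nlinarith)
  have f2 := hK2 k (by omega)
  have e1 : Λ' ^ (2 * (m * k)) = Λ ^ (2 * k) := by
    rw [← hΛ'm, ← pow_mul]
    congr 1
    ring
  have e2 : (S : A) ^ (m * k) = (S ^ m) ^ k := pow_mul S m k
  rw [e1, e2] at f1
  have f1' : (τ (CFC.log (1 + (Λ ^ (2 * k)) • (star ((S ^ m) ^ k) * (S ^ m) ^ k)))).re
      ≤ 1 / 2 * k := by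
    refine f1.trans (le_of_eq ?_)
    push_cast
    field_simp
  obtain ⟨U, V, hUV, hU, hV⟩ := split_pow (S ^ m) X hcomm ρ hρ1 hρP hρX k
  have hdiff : S ^ m - X = β • (1 : A) := by rw [hX]; abel
  rw [hdiff] at hUV
  set a : A := (Λ ^ (2 * k)) • (star ((S ^ m) ^ k) * (S ^ m) ^ k) with ha
  set b : A := (Λ ^ (2 * k)) • (star (X ^ k) * X ^ k) with hb'
  have ha0 : 0 ≤ a := smul_nonneg (by positivity) (star_mul_self_nonneg _)
  have hb0 : 0 ≤ b := smul_nonneg (by positivity) (star_mul_self_nonneg _)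
  have g1 : star ((β • (1 : A)) ^ (2 * k)) * (β • (1 : A)) ^ (2 * k)
      = (‖β‖ ^ (4 * k)) • (1 : A) := by
    rw [smul_pow, one_pow, star_smul, smul_mul_smul_comm, star_one, mul_one, ← Complex.coe_smul]
    congr 1
    rw [star_pow, ← mul_pow, Complex.star_def, ← Complex.normSq_eq_conj_mul_self,
      Complex.normSq_eq_norm_sq]
    push_cast
    ring
  have g2 : (‖β‖ ^ (4 * k)) • (1 : A) ≤ (2 : ℝ) • (((4 * ρ) ^ k) ^ 2 • (star ((S ^ m) ^ k) * (S ^ m) ^ k))
      + (2 : ℝ) • (((4 * ρ) ^ k) ^ 2 • (star (X ^ k) * X ^ k)) := by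
    rw [← g1, hUV]
    refine (add_sq_le _ _).trans (add_le_add ?_ ?_)
    · exact smul_le_smul_of_nonneg_left (star_mul_le U _ _ hU) (by norm_num)
    · exact smul_le_smul_of_nonneg_left (star_mul_le V _ _ hV) (by norm_num)
  set t : ℝ := Λ ^ (2 * k) * ‖β‖ ^ (4 * k) / (2 * ((4 * ρ) ^ k) ^ 2) with ht
  have ht0 : 0 < t := by positivity
  have g3 : algebraMap ℝ A t ≤ a + b := by
    have h3 : (0 : ℝ) ≤ Λ ^ (2 * k) / (2 * ((4 * ρ) ^ k) ^ 2) := by positivity
    have h4 := smul_le_smul_of_nonneg_left g2 h3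
    rw [smul_add, smul_smul, smul_smul, smul_smul, smul_smul, smul_smul] at h4
    have h5 : Λ ^ (2 * k) / (2 * ((4 * ρ) ^ k) ^ 2) * (2 * ((4 * ρ) ^ k) ^ 2) = Λ ^ (2 * k) := by
      field_simp
    have h6 : Λ ^ (2 * k) / (2 * ((4 * ρ) ^ k) ^ 2) * ‖β‖ ^ (4 * k) = t := by
      rw [ht]
      ring
    rw [h6] at h4
    have h7 : Λ ^ (2 * k) / (2 * ((4 * ρ) ^ k) ^ 2) * 2 * ((4 * ρ) ^ k) ^ 2 = Λ ^ (2 * k) := by
      rw [mul_assoc]; exact h5
    rw [h7] at h4
    rw [Algebra.algebraMap_eq_smul_one]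
    exact h4
  obtain ⟨d1, d2⟩ := t_D1 A τ hτ
  have g4 : algebraMap ℝ A t ≤ 1 + a + b := by
    refine g3.trans ?_
    rw [add_assoc]
    exact le_add_of_nonneg_left zero_le_one
  have g5 := d2 _ _ (isStrictlyPositive_algebraMap ht0) g4
  have g6 := hD2 A τ hτ a b ha0 hb0
  have g7 : (τ (CFC.log (algebraMap ℝ A t))).re = Real.log t := by
    rw [CFC.log_algebraMap, D7_algMap τ hτ]
  have g8 : Real.log t = 2 * k - Real.log 2 := by
    have h3 : t = Real.exp (2 * k) / 2 := by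
      rw [ht, hΛ, mul_pow, div_pow, ← Real.exp_nat_mul]
      have h4 : ((4 * ρ) ^ k) ^ 2 = (4 * ρ) ^ (2 * k) := by
        rw [← pow_mul]
        congr 1
        ring
      have h5 : (‖β‖ ^ 2) ^ (2 * k) = ‖β‖ ^ (4 * k) := by rw [← pow_mul]; congr 1; ring
      rw [h4, h5]
      have h6 : (4 * ρ) ^ (2 * k) ≠ 0 := by positivity
      have h7 : ‖β‖ ^ (4 * k) ≠ 0 := by positivity
      push_cast
      field_simp
    rw [h3, Real.log_div (Real.exp_pos _).ne' (by norm_num), Real.log_exp]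
  rw [g7, g8] at g5
  have hl := Real.log_two_lt_d9
  linarith

end Pool.Agent.J4.H89.Mom
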