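import Pool.Agent.J4.H89.Mom2

/-!
Moment criterion for fields of operators: if some centred moment `τ ((T - τ T)^m)` is not zero,
then almost every value of the field has a nontrivial closed hyperinvariant subspace.
-/

set_option autoImplicit false
open scoped ComplexConjugate InnerProductSpace Topology
open Filter MeasureTheory NormedSpace

namespace Pool.Agent.J4.H89.Mom
open Pool.Agent.H712R5.BO Pool.Agent.H417B Pool.Agent.W611.RO Pool.Agent.W338.RO

variable {Y : Type} [MeasurableSpace Y] {ν : Measure Y} [IsProbabilityMeasure ν]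
  {J : Type} [Countable J] {H : Type} [NormedAddCommGroup H] [InnerProductSpace ℂ H]
  [CompleteSpace H] {A : Type} [CStarAlgebra A] {τ : A →L[ℂ] ℂ}
  {e : Y → (A →⋆ₐ[ℂ] (H →L[ℂ] H))} {w : J → H} {v : H}

/-- the moment criterion -/
theorem mom (F : Fld ν τ e w v) (T : A) (m : ℕ) (hm : 1 ≤ m)
    (h : τ ((T - τ T • (1 : A)) ^ m) ≠ 0) : ∀ᵐ y ∂ν, HasHyp (e y T) := by
  by_contra hcon
  set S : A := T - τ T • (1 : A) with hS
  have hS0 : τ S = 0 := by
    have h1 : τ (τ T • (1 : A)) = τ T • τ 1 := τ.map_smul _ _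
    rw [hS, map_sub, h1, F.tr.one, smul_eq_mul, mul_one, sub_self]
  have hSc : ∀ (y : Y) (R : H →L[ℂ] H), R * e y T = e y T * R → R * e y S = e y S * R := by
    intro y R hR
    have hSe : e y S = e y T - τ T • 1 := by rw [hS, map_sub, map_smul, map_one]
    rw [hSe, mul_sub, sub_mul, hR, mul_smul_comm, smul_mul_assoc, mul_one, one_mul]
  set β : ℂ := τ (S ^ m) with hβ
  set Q : A := S ^ m - β • (1 : A) with hQ
  have hQ0 : τ Q = 0 := by
    have h1 : τ (β • (1 : A)) = β • τ 1 := τ.map_smul _ _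
    rw [hQ, map_sub, h1, F.tr.one, smul_eq_mul, mul_one, sub_self]
  have hQc : ∀ (y : Y) (R : H →L[ℂ] H), R * e y T = e y T * R → R * e y Q = e y Q * R := by
    intro y R hR
    have h1 := hSc y R hR
    have hQe : e y Q = e y S ^ m - β • 1 := by rw [hQ, map_sub, map_pow, map_smul, map_one]
    have h2 : Commute R (e y S ^ m) := (show Commute R (e y S) from h1).pow_right m
    rw [hQe, mul_sub, sub_mul, h2.eq, mul_smul_comm, smul_mul_assoc, mul_one, one_mul]
  have hlift : ∀ Z : A, (∀ (y : Y) (R : H →L[ℂ] H), R * e y T = e y T * R →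
      R * e y Z = e y Z * R) → (∀ᵐ y ∂ν, HasHyp (e y Z)) → ∀ᵐ y ∂ν, HasHyp (e y T) := by
    intro Z hZ hae
    filter_upwards [hae] with y hy
    obtain ⟨V, h1, h2, h3, h4⟩ := hy
    exact ⟨V, h1, h2, h3, fun R hR x hx => h4 R (hZ y R hR) x hx⟩
  have n1 : Nul τ S := fun z => (dich1 F S hS0 z).resolve_left fun hh => hcon (hlift S hSc hh)
  have n2' : Nul τ Q := fun z => (dich1 F Q hQ0 z).resolve_left fun hh => hcon (hlift Q hQc hh)
  exact no_nul F.tr S m hm β h n1 n2'

/-- if almost no value has a hyperinvariant subspace then the moments are the powers of `τ T` -/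
theorem mom_pow (F : Fld ν τ e w v) (T : A) (h : ¬ ∀ᵐ y ∂ν, HasHyp (e y T)) (n : ℕ) :
    τ (T ^ n) = (τ T) ^ n := by
  set c : ℂ := τ T with hc
  set S : A := T - c • (1 : A) with hS
  have hT : T = S + c • (1 : A) := by rw [hS]; abel
  have hcomm : Commute S (c • (1 : A)) := (Commute.one_right S).smul_right c
  have h0 : ∀ m : ℕ, 1 ≤ m → τ (S ^ m) = 0 := by
    intro m hm
    by_contra h1
    exact h (mom F T m hm h1)
  rw [hT, hcomm.add_pow, map_sum]
  rw [Finset.sum_eq_single 0]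
  · rw [pow_zero, one_mul, Nat.sub_zero, Nat.choose_zero_right, Nat.cast_one, mul_one, smul_pow,
      one_pow]
    have h1 : τ (c ^ n • (1 : A)) = c ^ n • τ 1 := τ.map_smul _ _
    rw [h1, F.tr.one, smul_eq_mul, mul_one]
  · intro m _ hm
    have e1 : S ^ m * (c • (1 : A)) ^ (n - m) * ((n.choose m : ℕ) : A)
        = (c ^ (n - m) * (n.choose m : ℂ)) • S ^ m := by
      rw [smul_pow, one_pow, mul_smul_comm, mul_one, ← nsmul_eq_mul', ← Nat.cast_smul_eq_nsmul ℂ,
        smul_smul, mul_comm]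
    have h1 : τ ((c ^ (n - m) * (n.choose m : ℂ)) • S ^ m)
        = (c ^ (n - m) * (n.choose m : ℂ)) • τ (S ^ m) := τ.map_smul _ _
    rw [e1, h1, h0 m (Nat.one_le_iff_ne_zero.2 hm), smul_zero]
  · intro h1
    exact absurd (Finset.mem_range.2 (Nat.succ_pos n)) h1

end Pool.Agent.J4.H89.Mom
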