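import Pool.Agent.J4.H89.Fam

/-!
Perturbations of covariant families: the moment criterion along a line.
-/

set_option autoImplicit false
open scoped ComplexConjugate InnerProductSpace Topology BoundedContinuousFunction
open Filter MeasureTheory NormedSpace

namespace Pool.Agent.J4.H89.Mom
open Pool.Agent.H712R5.BO Pool.Agent.W611.RO

section alg
variable {A : Type} [CStarAlgebra A]

/-- powers of `S + z V` are polynomials in `z` with leading coefficient `V ^ n` -/
theorem pow_line (S V : A) (n : ℕ) : ∃ a : ℕ → A, a n = V ^ n ∧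
    ∀ z : ℂ, (S + z • V) ^ n = ∑ k ∈ Finset.range (n + 1), z ^ k • a k := by
  induction n with
  | zero => exact ⟨fun _ => 1, by simp, fun z => by simp⟩
  | succ n ih =>
    obtain ⟨a, ha, haz⟩ := ih
    refine ⟨fun k => (if k < n + 1 then a k * S else 0) + (if k = 0 then 0 else a (k - 1) * V),
      ?_, fun z => ?_⟩
    · simp [ha, pow_succ]
    · rw [pow_succ, haz z, mul_add, Finset.sum_mul, Finset.sum_mul]
      simp only [smul_add, Finset.sum_add_distrib]
      congr 1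
      · rw [Finset.sum_range_succ (fun k => z ^ k • (if k < n + 1 then a k * S else 0)) (n + 1),
          if_neg (lt_irrefl _), smul_zero, add_zero]
        refine Finset.sum_congr rfl fun k hk => ?_
        rw [if_pos (Finset.mem_range.1 hk), smul_mul_assoc]
      · rw [Finset.sum_range_succ' (fun k => z ^ k • (if k = 0 then 0 else a (k - 1) * V)) (n + 1)]
        rw [if_pos rfl, smul_zero, add_zero]
        refine Finset.sum_congr rfl fun k _ => ?_
        rw [if_neg (Nat.succ_ne_zero k), Nat.add_sub_cancel, smul_mul_assoc, mul_smul_comm,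
          smul_smul, ← pow_succ]

/-- the zeros of the moments along a line -/
theorem zeros_line (τ : A →L[ℂ] ℂ) (S V : A) (n : ℕ) (hV : τ (V ^ n) ≠ 0) :
    {z : ℂ | τ ((S + z • V) ^ n) = 0}.Finite ∧ {z : ℂ | τ ((S + z • V) ^ n) = 0}.ncard ≤ n := by
  classical
  obtain ⟨a, ha, haz⟩ := pow_line S V n
  set p : Polynomial ℂ := ∑ k ∈ Finset.range (n + 1), Polynomial.C (τ (a k)) * Polynomial.X ^ k
    with hp
  have hev : ∀ z : ℂ, p.eval z = τ ((S + z • V) ^ n) := by
    intro z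
    rw [haz z, map_sum, hp, Polynomial.eval_finset_sum]
    refine Finset.sum_congr rfl fun k _ => ?_
    have h1 : τ (z ^ k • a k) = z ^ k • τ (a k) := τ.map_smul _ _
    rw [h1, Polynomial.eval_mul, Polynomial.eval_C, Polynomial.eval_pow, Polynomial.eval_X,
      smul_eq_mul, mul_comm]
  have hcoef : p.coeff n = τ (V ^ n) := by
    rw [hp, Polynomial.finset_sum_coeff]
    rw [Finset.sum_eq_single n]
    · rw [Polynomial.coeff_C_mul, Polynomial.coeff_X_pow, if_pos rfl, mul_one, ha]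
    · intro k _ hk
      rw [Polynomial.coeff_C_mul, Polynomial.coeff_X_pow, if_neg (Ne.symm hk), mul_zero]
    · intro h
      exact absurd (Finset.mem_range.2 (Nat.lt_succ_self n)) h
  have hp0 : p ≠ 0 := by
    intro h
    rw [h, Polynomial.coeff_zero] at hcoef
    exact hV hcoef.symm
  have hdeg : p.natDegree ≤ n := by
    rw [hp]
    refine Polynomial.natDegree_sum_le_of_forall_le _ _ fun k hk => ?_
    refine (Polynomial.natDegree_C_mul_X_pow_le _ _).trans ?_
    exact Nat.lt_succ_iff.1 (Finset.mem_range.1 hk)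
  have hset : {z : ℂ | τ ((S + z • V) ^ n) = 0} = (p.roots.toFinset : Set ℂ) := by
    ext z
    simp only [Finset.mem_coe, Multiset.mem_toFinset, Polynomial.mem_roots hp0,
      Polynomial.IsRoot.def, hev]
    exact Iff.rfl
  rw [hset]
  refine ⟨Finset.finite_toSet _, ?_⟩
  rw [Set.ncard_coe_finset]
  exact (Multiset.toFinset_card_le _).trans ((Polynomial.card_roots' p).trans hdeg)

end alg

section
variable {G Ω : Type} [Group G] [Countable G] [MeasurableSpace Ω] [MulAction G Ω]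

/-- the centred moment of a family -/
noncomputable def cmom (P : Measure Ω) (T : Ω → (L2 G →L[ℂ] L2 G)) (n : ℕ) : ℂ :=
  ∫ ω, ⟪stb G 1, ((T ω - (∫ ω', ⟪stb G 1, T ω' (stb G 1)⟫_ℂ ∂P) • 1) ^ n) (stb G 1)⟫_ℂ ∂P

theorem cmom_eq {P : Measure Ω} [IsProbabilityMeasure P] {L : G → unitary (L2 G →L[ℂ] L2 G)}
    {T : Ω → (L2 G →L[ℂ] L2 G)} {X : CF (Ω := Ω) (stb G) L}
    (hX : ∀ᵐ ω ∂P, Pool.Agent.W611.RO.ev (stb G) L ω X = T ω) (n : ℕ) :
    cmom P T n = tau P (stb G) L ((X - tau P (stb G) L X • (1 : CF (Ω := Ω) (stb G) L)) ^ n) := by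
  have h1 : ∫ ω', ⟪stb G 1, T ω' (stb G 1)⟫_ℂ ∂P = tau P (stb G) L X := by
    rw [tau_apply]
    refine integral_congr_ae ?_
    filter_upwards [hX] with ω h2
    rw [h2]
  unfold cmom
  rw [h1, tau_apply]
  refine integral_congr_ae ?_
  filter_upwards [hX] with ω h2
  rw [map_pow, map_sub, map_smul, map_one (Pool.Agent.W611.RO.ev (stb G) L ω), h2]

/-- the moment criterion for families -/
theorem fam_mom {P : Measure Ω} [IsProbabilityMeasure P] (herg : Erg G P)
    {T : Ω → (L2 G →L[ℂ] L2 G)} (hT : Covf T) {n : ℕ} (hn : 1 ≤ n) (h : cmom P T n ≠ 0) :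
    ∀ᵐ ω ∂P, HasHyp (T ω) := by
  obtain ⟨L, hL⟩ := exists_L G
  obtain ⟨X, hX⟩ := exists_field herg hL hT
  rw [cmom_eq hX] at h
  have h1 := mom (fldCF herg hL) X n hn h
  filter_upwards [h1, hX] with ω h2 h3
  rw [← h3]
  exact h2

/-- the moment criterion along a line -/
theorem fam_line {P : Measure Ω} [IsProbabilityMeasure P] (herg : Erg G P)
    {T V : Ω → (L2 G →L[ℂ] L2 G)} (hT : Covf T) (hV : Covf V) {n : ℕ} (hn : 1 ≤ n)
    (h : cmom P V n ≠ 0) :
    {z : ℂ | ¬ ∀ᵐ ω ∂P, HasHyp (T ω + z • V ω)}.Finite ∧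
      {z : ℂ | ¬ ∀ᵐ ω ∂P, HasHyp (T ω + z • V ω)}.ncard ≤ n := by
  obtain ⟨L, hL⟩ := exists_L G
  obtain ⟨X, hX⟩ := exists_field herg hL hT
  obtain ⟨Y, hY⟩ := exists_field herg hL hV
  rw [cmom_eq hY] at h
  set τ := tau P (stb G) L with hτ
  obtain ⟨h1, h2⟩ := zeros_line τ (X - τ X • 1) (Y - τ Y • 1) n h
  have hsub : {z : ℂ | ¬ ∀ᵐ ω ∂P, HasHyp (T ω + z • V ω)}
      ⊆ {z : ℂ | τ ((X - τ X • 1 + z • (Y - τ Y • 1)) ^ n) = 0} := by
    intro z hz
    by_contra h3
    apply hz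
    have e1 : X + z • Y - τ (X + z • Y) • (1 : CF (Ω := Ω) (stb G) L)
        = X - τ X • 1 + z • (Y - τ Y • 1) := by
      have e2 : τ (z • Y) = z • τ Y := τ.map_smul _ _
      rw [map_add, e2, smul_sub, smul_smul, add_smul, smul_eq_mul]
      abel
    have h4 := mom (fldCF herg hL) (X + z • Y) n hn (by rw [← hτ, e1]; exact h3)
    filter_upwards [h4, hX, hY] with ω h5 h6 h7
    rw [map_add, map_smul, h6, h7] at h5
    exact h5
  exact ⟨h1.subset hsub, (Set.ncard_le_ncard hsub h1).trans h2⟩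

/-- self-adjoint families which are not scalar have a nonzero second moment -/
theorem cmom_sa {P : Measure Ω} [IsProbabilityMeasure P] (herg : Erg G P)
    {V : Ω → (L2 G →L[ℂ] L2 G)} (hV : Covf V) (hsa : ∀ ω, IsSelfAdjoint (V ω))
    (hns : ¬ ∃ c : ℂ, ∀ᵐ ω ∂P, V ω = c • 1) : cmom P V 2 ≠ 0 := by
  intro h0
  apply hns
  obtain ⟨L, hL⟩ := exists_L G
  obtain ⟨Y, hY⟩ := exists_field herg hL hV
  rw [cmom_eq hY] at h0
  set τ := tau P (stb G) L with hτ
  set c : ℂ := τ Y with hc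
  refine ⟨c, ?_⟩
  -- `c` is real
  have hcr : conj c = c := by
    have h1 : c = ∫ ω, ⟪stb G 1, V ω (stb G 1)⟫_ℂ ∂P := by
      rw [hc, hτ, tau_apply]
      refine integral_congr_ae ?_
      filter_upwards [hY] with ω h2
      rw [h2]
    rw [h1, ← integral_conj]
    refine integral_congr_ae (Eventually.of_forall fun ω => ?_)
    show conj ⟪stb G 1, V ω (stb G 1)⟫_ℂ = ⟪stb G 1, V ω (stb G 1)⟫_ℂ
    rw [inner_conj_symm, ← ContinuousLinearMap.adjoint_inner_right,
      ← ContinuousLinearMap.star_eq_adjoint, (hsa ω).star_eq]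
  have hev : ∀ᵐ ω ∂P, Pool.Agent.W611.RO.ev (stb G) L ω (Y - c • 1) = V ω - c • 1 := by
    filter_upwards [hY] with ω h2
    rw [map_sub, map_smul, map_one (Pool.Agent.W611.RO.ev (stb G) L ω), h2]
  have hsa2 : ∀ ω, IsSelfAdjoint (V ω - c • 1) := by
    intro ω
    refine (hsa ω).sub ?_
    rw [isSelfAdjoint_iff, star_smul, star_one, Complex.star_def, hcr]
  have hn := fun k : G => ((Pool.Agent.W540.RO.t_N2 G Ω (L2 G) P (stb G) L hL herg.mp
    (Y - c • 1)).2 k)
  have hz : n2 τ (Y - c • 1) ^ 2 = 0 := by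
    have hB1 := Pool.Agent.H712R5.BO.t_B1 (CF (Ω := Ω) (stb G) L) τ (fldCF herg hL).tr
    rw [hB1.2.2.2.2.2.2.2.2.2.2]
    have h3 : τ (star (Y - c • 1) * (Y - c • 1)) = τ ((Y - c • 1) ^ 2) := by
      rw [hτ, tau_apply, tau_apply]
      refine integral_congr_ae ?_
      filter_upwards [hev] with ω h4
      rw [map_mul, map_star, map_pow, h4, (hsa2 ω).star_eq, pow_two]
    rw [h3, h0, Complex.zero_re]
  have hall : ∀ᵐ ω ∂P, ∀ k : G, ‖Pool.Agent.W611.RO.ev (stb G) L ω (Y - c • 1) (stb G k)‖ = 0 := by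
    rw [ae_all_iff]
    intro k
    obtain ⟨h5, h6⟩ := hn k
    rw [← hτ, hz] at h6
    rw [integral_eq_zero_iff_of_nonneg (fun ω => sq_nonneg _) h5] at h6
    filter_upwards [h6] with ω h7
    have h8 : ‖Pool.Agent.W611.RO.ev (stb G) L ω (Y - c • 1) (stb G k)‖ ^ 2 = 0 := h7
    exact pow_eq_zero_iff two_ne_zero |>.1 h8
  filter_upwards [hall, hev] with ω h9 h10
  have h11 : V ω - c • 1 = 0 := by
    rw [← h10]
    refine Pool.Agent.W253.RO.clm_ext (stb G) _ _ fun k => ?_
    exact norm_eq_zero.1 (h9 k)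
  exact sub_eq_zero.1 h11

end

end Pool.Agent.J4.H89.Mom
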