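import Pool.Agent.J4.H89.Fam

/-!
Covariant families of operators on `ℓ²(G)` with nonnegative matrix coefficients.
-/

set_option autoImplicit false
open scoped ComplexConjugate InnerProductSpace Topology BoundedContinuousFunction
open Filter MeasureTheory NormedSpace

namespace Pool.Agent.J4.H89.Mom
open Pool.Agent.H712R5.BO Pool.Agent.W611.RO

/-- nontrivial closed invariant subspace -/
def HasInv {H : Type} [NormedAddCommGroup H] [NormedSpace ℂ H] (T : H →L[ℂ] H) : Prop :=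
  ∃ V : Submodule ℂ H, IsClosed (V : Set H) ∧ V ≠ ⊥ ∧ V ≠ ⊤ ∧ ∀ x ∈ V, T x ∈ V

theorem HasHyp.inv {H : Type} [NormedAddCommGroup H] [NormedSpace ℂ H] {T : H →L[ℂ] H}
    (h : HasHyp T) : HasInv T := by
  obtain ⟨V, h1, h2, h3, h4⟩ := h
  exact ⟨V, h1, h2, h3, h4 T rfl⟩

section
variable {G : Type}

/-- real part of the matrix coefficient -/
noncomputable def co (A : L2 G →L[ℂ] L2 G) (i j : G) : ℝ := (⟪stb G i, A (stb G j)⟫_ℂ).re

/-- nonnegative matrix coefficients -/
def PosM (A : L2 G →L[ℂ] L2 G) : Prop :=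
  ∀ i j : G, 0 ≤ (⟪stb G i, A (stb G j)⟫_ℂ).re ∧ (⟪stb G i, A (stb G j)⟫_ℂ).im = 0

theorem PosM.eq {A : L2 G →L[ℂ] L2 G} (h : PosM A) (i j : G) :
    ⟪stb G i, A (stb G j)⟫_ℂ = (co A i j : ℂ) := by
  apply Complex.ext
  · simp [co]
  · simp [(h i j).2]

theorem hs_mul (A B : L2 G →L[ℂ] L2 G) (i j : G) :
    HasSum (fun k => ⟪stb G i, A (stb G k)⟫_ℂ * ⟪stb G k, B (stb G j)⟫_ℂ)
      ⟪stb G i, (A * B) (stb G j)⟫_ℂ := by
  have h1 := (stb G).hasSum_inner_mul_inner (star A (stb G i)) (B (stb G j))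
  have h2 : ⟪star A (stb G i), B (stb G j)⟫_ℂ = ⟪stb G i, (A * B) (stb G j)⟫_ℂ := by
    rw [ContinuousLinearMap.star_eq_adjoint, ContinuousLinearMap.adjoint_inner_left]
    rfl
  rw [h2] at h1
  refine h1.congr_fun fun k => ?_
  rw [ContinuousLinearMap.star_eq_adjoint, ContinuousLinearMap.adjoint_inner_left]

theorem co_mul {A B : L2 G →L[ℂ] L2 G} (hA : PosM A) (hB : PosM B) (i j : G) :
    HasSum (fun k => co A i k * co B k j) (co (A * B) i j) := by
  have h1 := hs_mul A B i j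
  have h2 := h1.mapL Complex.reCLM
  refine h2.congr_fun fun k => ?_
  rw [hA.eq, hB.eq, ← Complex.ofReal_mul]
  rfl

theorem PosM.mul {A B : L2 G →L[ℂ] L2 G} (hA : PosM A) (hB : PosM B) : PosM (A * B) := by
  intro i j
  constructor
  · exact (co_mul hA hB i j).nonneg fun k => mul_nonneg (hA i k).1 (hB k j).1
  · have h1 := (hs_mul A B i j).mapL Complex.imCLM
    have h2 : (fun k => Complex.imCLM (⟪stb G i, A (stb G k)⟫_ℂ * ⟪stb G k, B (stb G j)⟫_ℂ))
        = fun _ => 0 := by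
      funext k
      rw [hA.eq, hB.eq, ← Complex.ofReal_mul]
      exact Complex.ofReal_im (co A i k * co B k j)
    rw [h2] at h1
    exact h1.unique hasSum_zero

theorem co_one (i : G) : co (1 : L2 G →L[ℂ] L2 G) i i = 1 := by
  show (⟪stb G i, stb G i⟫_ℂ).re = 1
  rw [inner_self_eq_norm_sq_to_K, (stb G).orthonormal.1 i]
  simp

theorem posM_one : PosM (1 : L2 G →L[ℂ] L2 G) := by
  classical
  intro i j
  show 0 ≤ (⟪stb G i, stb G j⟫_ℂ).re ∧ (⟪stb G i, stb G j⟫_ℂ).im = 0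
  rw [orthonormal_iff_ite.1 (stb G).orthonormal i j]
  split_ifs <;> simp

theorem PosM.pow {A : L2 G →L[ℂ] L2 G} (hA : PosM A) (n : ℕ) : PosM (A ^ n) := by
  induction n with
  | zero => rw [pow_zero]; exact posM_one
  | succ n ih => rw [pow_succ]; exact ih.mul hA

/-- the diagonal coefficient of the `n`-th power dominates the power -/
theorem pow_le_co {A : L2 G →L[ℂ] L2 G} (hA : PosM A) (n : ℕ) (i : G) :
    (co A i i) ^ n ≤ co (A ^ n) i i := by
  induction n with
  | zero => rw [pow_zero, pow_zero, co_one]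
  | succ n ih =>
    rw [pow_succ, pow_succ]
    calc (co A i i) ^ n * co A i i ≤ co (A ^ n) i i * co A i i :=
          mul_le_mul_of_nonneg_right ih (hA i i).1
      _ ≤ co (A ^ n * A) i i :=
          le_hasSum (co_mul (hA.pow n) hA i i) i fun k _ =>
            mul_nonneg ((hA.pow n) i k).1 (hA k i).1

/-- two terms -/
theorem two_le {A B : L2 G →L[ℂ] L2 G} (hA : PosM A) (hB : PosM B) {i j : G} (hij : i ≠ j) :
    co A i i * co B i i + co A i j * co B j i ≤ co (A * B) i i := by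
  classical
  have h1 := sum_le_hasSum {i, j} (fun k _ => mul_nonneg (hA i k).1 (hB k i).1) (co_mul hA hB i i)
  rw [Finset.sum_pair hij] at h1
  exact h1

/-- no cycles -/
theorem acyc {A : L2 G →L[ℂ] L2 G} (hA : PosM A) {c : ℝ}
    (hc : ∀ (n : ℕ) (i : G), co (A ^ n) i i = c ^ n) {i j : G} (hij : i ≠ j) (a b : ℕ) :
    co (A ^ a) i j = 0 ∨ co (A ^ b) j i = 0 := by
  by_contra hcon
  push Not at hcon
  have h1 : 0 < co (A ^ a) i j := lt_of_le_of_ne ((hA.pow a) i j).1 (Ne.symm hcon.1)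
  have h2 : 0 < co (A ^ b) j i := lt_of_le_of_ne ((hA.pow b) j i).1 (Ne.symm hcon.2)
  have h3 := two_le (hA.pow a) (hA.pow b) hij
  rw [← pow_add, hc, hc, hc, ← pow_add] at h3
  have := mul_pos h1 h2
  linarith

/-- the closed subspace of the functions supported in `W` -/
def supp (W : Set G) : Submodule ℂ (L2 G) where
  carrier := {x | ∀ i, i ∉ W → ⟪stb G i, x⟫_ℂ = 0}
  add_mem' := by
    intro x y hx hy i hi
    rw [inner_add_right, hx i hi, hy i hi, add_zero]
  zero_mem' := by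
    intro i _
    exact inner_zero_right _
  smul_mem' := by
    intro c x hx i hi
    rw [inner_smul_right, hx i hi, mul_zero]

theorem mem_supp {W : Set G} {x : L2 G} : x ∈ supp W ↔ ∀ i, i ∉ W → ⟪stb G i, x⟫_ℂ = 0 := Iff.rfl

theorem closed_supp (W : Set G) : IsClosed ((supp W : Submodule ℂ (L2 G)) : Set (L2 G)) := by
  have h1 : ((supp W : Submodule ℂ (L2 G)) : Set (L2 G))
      = ⋂ (i : G) (_ : i ∉ W), {x | ⟪stb G i, x⟫_ℂ = 0} := by
    ext x
    simp only [SetLike.mem_coe, mem_supp, Set.mem_iInter]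
    rfl
  rw [h1]
  refine isClosed_iInter fun i => isClosed_iInter fun _ => ?_
  exact isClosed_eq (continuous_const.inner continuous_id) continuous_const

theorem inv_supp {A : L2 G →L[ℂ] L2 G} {W : Set G}
    (hW : ∀ k ∈ W, ∀ i, i ∉ W → ⟪stb G i, A (stb G k)⟫_ℂ = 0) {x : L2 G} (hx : x ∈ supp W) :
    A x ∈ supp W := by
  intro i hi
  have h1 := (stb G).hasSum_inner_mul_inner (star A (stb G i)) x
  have h2 : ⟪star A (stb G i), x⟫_ℂ = ⟪stb G i, A x⟫_ℂ := by
    rw [ContinuousLinearMap.star_eq_adjoint, ContinuousLinearMap.adjoint_inner_left]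
  rw [h2] at h1
  have h3 : (fun k => ⟪star A (stb G i), stb G k⟫_ℂ * ⟪stb G k, x⟫_ℂ) = fun _ => 0 := by
    funext k
    by_cases hk : k ∈ W
    · rw [ContinuousLinearMap.star_eq_adjoint, ContinuousLinearMap.adjoint_inner_left,
        hW k hk i hi, zero_mul]
    · rw [hx k hk, mul_zero]
  rw [h3] at h1
  exact h1.unique hasSum_zero

theorem supp_ne_bot {W : Set G} {i : G} (hi : i ∈ W) : supp W ≠ (⊥ : Submodule ℂ (L2 G)) := by
  classical
  intro h
  have h1 : stb G i ∈ supp W := by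
    intro j hj
    rw [orthonormal_iff_ite.1 (stb G).orthonormal j i, if_neg]
    rintro rfl
    exact hj hi
  rw [h, Submodule.mem_bot] at h1
  have h3 : ‖stb G i‖ = 1 := (stb G).orthonormal.1 i
  rw [h1, norm_zero] at h3
  exact zero_ne_one h3

theorem supp_ne_top {W : Set G} {i : G} (hi : i ∉ W) : supp W ≠ (⊤ : Submodule ℂ (L2 G)) := by
  intro h
  have h1 : stb G i ∈ supp W := by rw [h]; trivial
  have h2 := h1 i hi
  rw [inner_self_eq_norm_sq_to_K, (stb G).orthonormal.1 i] at h2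
  simp at h2

/-- an acyclic nonnegative matrix has an invariant coordinate subspace -/
theorem acyc_inv [Nontrivial G] {A : L2 G →L[ℂ] L2 G} (hA : PosM A) {c : ℝ}
    (hc : ∀ (n : ℕ) (i : G), co (A ^ n) i i = c ^ n) : HasInv A := by
  obtain ⟨i, j, hij⟩ := exists_pair_ne G
  have hW : ∀ i : G, ∀ k ∈ {k : G | ∃ n : ℕ, co (A ^ n) k i ≠ 0},
      ∀ l, l ∉ {k : G | ∃ n : ℕ, co (A ^ n) k i ≠ 0} → ⟪stb G l, A (stb G k)⟫_ℂ = 0 := by
    intro i k hk l hl
    obtain ⟨n, hn⟩ := hk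
    by_contra h0
    apply hl
    refine ⟨n + 1, ?_⟩
    rw [hA.eq] at h0
    have h1 : co A l k ≠ 0 := fun h => h0 (by rw [h]; rfl)
    have h2 : 0 < co A l k := lt_of_le_of_ne (hA l k).1 (Ne.symm h1)
    have h3 : 0 < co (A ^ n) k i := lt_of_le_of_ne ((hA.pow n) k i).1 (Ne.symm hn)
    have h4 := le_hasSum (co_mul hA (hA.pow n) l i) k fun m _ =>
      mul_nonneg (hA l m).1 ((hA.pow n) m i).1
    rw [← pow_succ'] at h4
    have h5 := mul_pos h2 h3
    exact (lt_of_lt_of_le h5 h4).ne'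
  have hmem : ∀ i : G, i ∈ {k : G | ∃ n : ℕ, co (A ^ n) k i ≠ 0} := by
    intro i
    refine ⟨0, ?_⟩
    rw [pow_zero, co_one]
    exact one_ne_zero
  have hne : ∀ i : G, ∀ l, l ∉ {k : G | ∃ n : ℕ, co (A ^ n) k i ≠ 0} → HasInv A := by
    intro i l hl
    exact ⟨supp {k : G | ∃ n : ℕ, co (A ^ n) k i ≠ 0}, closed_supp _, supp_ne_bot (hmem i),
      supp_ne_top hl, fun x hx => inv_supp (hW i) hx⟩
  by_cases h1 : j ∈ {k : G | ∃ n : ℕ, co (A ^ n) k i ≠ 0}
  · by_cases h2 : i ∈ {k : G | ∃ n : ℕ, co (A ^ n) k j ≠ 0}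
    · exfalso
      obtain ⟨a, ha⟩ := h1
      obtain ⟨b, hb⟩ := h2
      rcases acyc hA hc hij.symm a b with h | h
      · exact ha h
      · exact hb h
    · exact hne j i h2
  · exact hne i j h1

end

section
variable {G Ω : Type} [Group G] [Countable G] [MeasurableSpace Ω] [MulAction G Ω]

omit [Countable G] in
theorem Covf.pow_cov {T : Ω → (L2 G →L[ℂ] L2 G)} (hT : Covf T) (n : ℕ) (g i j : G) (ω : Ω) :
    ⟪stb G (g * i), (T (g • ω) ^ n) (stb G (g * j))⟫_ℂ = ⟪stb G i, (T ω ^ n) (stb G j)⟫_ℂ := by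
  induction n generalizing i j with
  | zero =>
    classical
    rw [pow_zero, pow_zero]
    show ⟪stb G (g * i), stb G (g * j)⟫_ℂ = ⟪stb G i, stb G j⟫_ℂ
    rw [orthonormal_iff_ite.1 (stb G).orthonormal, orthonormal_iff_ite.1 (stb G).orthonormal]
    simp
  | succ n ih =>
    rw [pow_succ, pow_succ]
    have h1 := hs_mul (T ω ^ n) (T ω) i j
    have h2 := hs_mul (T (g • ω) ^ n) (T (g • ω)) (g * i) (g * j)
    rw [← (Equiv.mulLeft g).hasSum_iff] at h2
    refine h2.unique (h1.congr_fun fun k => ?_)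
    show ⟪stb G (g * i), (T (g • ω) ^ n) (stb G (g * k))⟫_ℂ
      * ⟪stb G (g * k), T (g • ω) (stb G (g * j))⟫_ℂ = _
    rw [ih, hT.cov]

/-- either hyperinvariant subspaces, or the powers have constant diagonal -/
theorem pos_dich {P : Measure Ω} [IsProbabilityMeasure P] (herg : Erg G P)
    {T : Ω → (L2 G →L[ℂ] L2 G)} (hT : Covf T) (hp : ∀ ω, PosM (T ω)) :
    (∀ᵐ ω ∂P, HasHyp (T ω)) ∨ ∃ c : ℝ, ∀ᵐ ω ∂P, ∀ (n : ℕ) (i : G), co (T ω ^ n) i i = c ^ n := by
  rcases fam_dich herg hT with h | h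
  · exact Or.inl h
  · right
    have hint : ∀ n : ℕ, Integrable (fun ω => co (T ω ^ n) 1 1) P := fun n =>
      (fam_int herg hT n).1.re
    set c : ℝ := ∫ ω, co (T ω) 1 1 ∂P with hc
    have hco : ∀ n : ℕ, ∫ ω, ⟪stb G 1, (T ω ^ n) (stb G 1)⟫_ℂ ∂P
        = ((∫ ω, co (T ω ^ n) 1 1 ∂P : ℝ) : ℂ) := by
      intro n
      rw [← integral_complex_ofReal]
      refine integral_congr_ae (Eventually.of_forall fun ω => ?_)
      exact ((hp ω).pow n).eq 1 1
    have hmom : ∀ n : ℕ, ∫ ω, co (T ω ^ n) 1 1 ∂P = c ^ n := by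
      intro n
      have h1 := h n
      rw [hco n] at h1
      have h2 := hco 1
      simp only [pow_one] at h2
      rw [h2] at h1
      exact_mod_cast h1
    have hi1 : Integrable (fun ω => co (T ω) 1 1) P := by
      have := hint 1
      simpa using this
    -- the diagonal is constant
    have hdiag : ∀ᵐ ω ∂P, co (T ω) 1 1 = c := by
      have h0 : ∀ ω, (co (T ω) 1 1) ^ 2 ≤ co (T ω ^ 2) 1 1 := fun ω => pow_le_co (hp ω) 2 1
      have hi2 : Integrable (fun ω => (co (T ω) 1 1) ^ 2) P := by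
        refine Integrable.mono' (hint 2) (hi1.aestronglyMeasurable.pow 2)
          (Eventually.of_forall fun ω => ?_)
        rw [Real.norm_eq_abs, abs_of_nonneg (sq_nonneg _)]
        exact h0 ω
      have h3 : ∫ ω, (co (T ω) 1 1 - c) ^ 2 ∂P ≤ 0 := by
        have e1 : ∀ ω, (co (T ω) 1 1 - c) ^ 2
            = (co (T ω) 1 1) ^ 2 + (-(2 * c) * co (T ω) 1 1 + c ^ 2) := fun ω => by ring
        simp_rw [e1]
        have a1 : Integrable (fun ω => -(2 * c) * co (T ω) 1 1) P := hi1.const_mul _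
        have a2 : Integrable (fun ω => -(2 * c) * co (T ω) 1 1 + c ^ 2) P :=
          a1.add (integrable_const _)
        rw [integral_add hi2 a2, integral_add a1 (integrable_const _), integral_const_mul, ← hc,
          integral_const]
        have h4 : ∫ ω, (co (T ω) 1 1) ^ 2 ∂P ≤ c ^ 2 := by
          rw [← hmom 2]
          exact integral_mono hi2 (hint 2) h0
        simp only [probReal_univ, smul_eq_mul, one_mul]
        nlinarith
      have hi3 : Integrable (fun ω => (co (T ω) 1 1 - c) ^ 2) P := by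
        have e1 : (fun ω => (co (T ω) 1 1 - c) ^ 2)
            = fun ω => (co (T ω) 1 1) ^ 2 + (-(2 * c) * co (T ω) 1 1 + c ^ 2) := by
          funext ω; ring
        rw [e1]
        exact hi2.add ((hi1.const_mul _).add (integrable_const _))
      have h5 : ∫ ω, (co (T ω) 1 1 - c) ^ 2 ∂P = 0 :=
        le_antisymm h3 (integral_nonneg fun ω => sq_nonneg _)
      rw [integral_eq_zero_iff_of_nonneg (fun ω => sq_nonneg _) hi3] at h5
      filter_upwards [h5] with ω h6
      have h7 : (co (T ω) 1 1 - c) ^ 2 = 0 := h6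
      have h8 := pow_eq_zero_iff (two_ne_zero) |>.1 h7
      linarith
    have hpw : ∀ᵐ ω ∂P, ∀ n : ℕ, co (T ω ^ n) 1 1 = c ^ n := by
      rw [ae_all_iff]
      intro n
      have h1 : 0 ≤ᵐ[P] fun ω => co (T ω ^ n) 1 1 - c ^ n := by
        filter_upwards [hdiag] with ω hω
        have h2 := pow_le_co (hp ω) n 1
        rw [hω] at h2
        exact sub_nonneg.2 h2
      have h2 : ∫ ω, (co (T ω ^ n) 1 1 - c ^ n) ∂P = 0 := by
        rw [integral_sub (hint n) (integrable_const _), hmom n, integral_const]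
        simp
      rw [integral_eq_zero_iff_of_nonneg_ae h1 ((hint n).sub (integrable_const _))] at h2
      filter_upwards [h2] with ω h3
      have h4 : co (T ω ^ n) 1 1 - c ^ n = 0 := h3
      linarith
    refine ⟨c, ?_⟩
    have hall : ∀ᵐ ω ∂P, ∀ i : G, ∀ n : ℕ, co (T (i⁻¹ • ω) ^ n) 1 1 = c ^ n := by
      rw [ae_all_iff]
      intro i
      exact (herg.mp i⁻¹).quasiMeasurePreserving.ae hpw
    filter_upwards [hall] with ω hω n i
    have h1 := hT.pow_cov n i 1 1 (i⁻¹ • ω)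
    rw [smul_inv_smul, mul_one] at h1
    have h2 := hω i n
    rw [← h2]
    unfold co
    rw [h1]

end

end Pool.Agent.J4.H89.Mom
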